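import Pool.Agent.H39.ND.Bas

/-!
# Module BDir (70 lines): many points, few of them in every direction: many directions

PROOF. Among the subsets `E'` of `B` with `¬ Cl q a b` for all `a ≠ b` in `E'` take one of maximal
cardinality (`∅` is such a set). Every `x ∈ B` is on a line `q a` with `a ∈ E'` (`x ∈ E'`: `Cl q x x`;
else `insert x E'` would be larger, use `cl_swap`). So `B ⊆ ⋃_{a ∈ E'} B.filter (Cl q a)` and
`|B| ≤ |E'| * K`.
-/

namespace Pool.Agent.H39.ND

open Finset
open scoped Classical

theorem bdir (q : V3) (E B : Finset V3) (hB : B ⊆ E) (hq : q ∉ B) (K : ℕ) (hK : 0 < K)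
    (h : ∀ a ∈ B, (B.filter fun b => Cl q a b).card ≤ K) : Sees q E ((B.card : ℝ) / K) := by
  set S : Finset (Finset V3) := B.powerset.filter
    (fun E' => ∀ a ∈ E', ∀ b ∈ E', a ≠ b → ¬ Cl q a b) with hS
  have hne : S.Nonempty := ⟨∅, by rw [hS, mem_filter]; exact ⟨mem_powerset.2 (empty_subset _), by simp⟩⟩
  obtain ⟨E', hE', hmax⟩ := Finset.exists_max_image S Finset.card hne
  rw [hS, mem_filter, mem_powerset] at hE'
  obtain ⟨hEB, hdir⟩ := hE'
  have hcov : B ⊆ E'.biUnion fun a => B.filter fun b => Cl q a b := by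
    intro x hx
    rw [mem_biUnion]
    by_contra hno
    push Not at hno
    have hno' : ∀ a ∈ E', ¬ Cl q a x := fun a ha hc => hno a ha (mem_filter.2 ⟨hx, hc⟩)
    have hxE : x ∉ E' := fun hxE => hno' x hxE (cl_self' q x)
    have h1 : insert x E' ∈ S := by
      rw [hS, mem_filter, mem_powerset]
      refine ⟨insert_subset hx hEB, ?_⟩
      intro a ha b hb hab hc
      rcases mem_insert.1 ha with rfl | ha'
      · rcases mem_insert.1 hb with rfl | hb'
        · exact hab rfl
        · exact hno' b hb' (cl_swap hc)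
      · rcases mem_insert.1 hb with rfl | hb'
        · exact hno' a ha' hc
        · exact hdir a ha' b hb' hab hc
    have h2 := hmax _ h1
    rw [card_insert_of_notMem hxE] at h2
    omega
  have hcard : B.card ≤ E'.card * K := by
    calc B.card ≤ (E'.biUnion fun a => B.filter fun b => Cl q a b).card := card_le_card hcov
      _ ≤ ∑ a ∈ E', (B.filter fun b => Cl q a b).card := card_biUnion_le
      _ ≤ ∑ _a ∈ E', K := sum_le_sum fun a ha => h a (hEB ha)
      _ = E'.card * K := by rw [sum_const, smul_eq_mul]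
  refine ⟨E', hEB.trans hB, fun hqE => hq (hEB hqE), ?_, hdir⟩
  have hK' : (0 : ℝ) < K := by exact_mod_cast hK
  rw [div_le_iff₀ hK']
  exact_mod_cast hcard

end Pool.Agent.H39.ND
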