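import Pool.Agent.H39.ND.Rich

/-!
# Module BSum (130 lines): few pairs are on lines which are rich but not very rich

PROOF. `C₀` the constant of `rich`, `n = |E|`. For natural `K ≥ 2`, `M`:
`∑_{l ∈ lns E, K ≤ |l| ≤ M} |l|² = ∑_l ∑_{j = 1}^{|l|} (2 j - 1) ≤ ∑_{j = 1}^{M} (2 j - 1) N(max j K)` with
`N(k)` = number of lines with at least `k` points `≤ C₀ (n²/k³ + n/k)`. The part `j ≤ K` is
`K² N(K) ≤ C₀ (n² / K + n K)`, the part `K < j ≤ M` is at most `∑ 2 j C₀ (n²/j³ + n/j) ≤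
C₀ (2 n² ∑_{j > K} 1/j² + 2 n M) ≤ C₀ (2 n² / K + 2 n M)`. Total `≤ C₀ (3 n² / K + n K + 2 n M)`.
(`∑_{K < j ≤ M} 1/j² ≤ 1/K`: telescoping, `1/j² ≤ 1/(j-1) - 1/j`.)
Choose `K = ⌈144 C₀⌉₊` (`≥ 2`), `c = 1 / (48 C₀)`, and let `n ≥ n₀ = ⌈48 K C₀⌉₊`; `M = ⌊c n⌋₊`: the total is at most
`n² (1/48 + 1/48 + 1/24) = n² / 12 ≤ n² / 8`.
-/

namespace Pool.Agent.H39.ND

open Finset
open scoped Classical

private theorem BSum_sq (K m : ℕ) (h : K ≤ m) :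
    ((m : ℝ)) ^ 2 = (K : ℝ) ^ 2 + ∑ j ∈ Ico K m, (2 * (j : ℝ) + 1) := by
  induction m, h using Nat.le_induction with
  | base => simp
  | succ m hm ih =>
    rw [Finset.sum_Ico_succ_top hm]
    push_cast
    linarith

private theorem BSum_tel (K M : ℕ) (hK : 1 ≤ K) (h : K ≤ M) :
    ∑ j ∈ Ico K M, (1 / ((j : ℝ) + 1) ^ 2) ≤ 1 / (K : ℝ) - 1 / (M : ℝ) := by
  induction M, h using Nat.le_induction with
  | base => simp
  | succ m hm ih =>
    rw [Finset.sum_Ico_succ_top hm]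
    have hm0 : (0 : ℝ) < m := by
      have : 0 < m := by omega
      exact_mod_cast this
    have h1 : 1 / ((m : ℝ) + 1) ^ 2 ≤ 1 / (m : ℝ) - 1 / ((m : ℝ) + 1) := by
      have e : 1 / (m : ℝ) - 1 / ((m : ℝ) + 1) = 1 / ((m : ℝ) * ((m : ℝ) + 1)) := by
        field_simp
        ring
      rw [e]
      apply one_div_le_one_div_of_le (by positivity)
      nlinarith
    push_cast
    linarith

private theorem BSum_main {E : Finset V3} {C₀ : ℝ} (hC : 1 ≤ C₀)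
    (hr : ∀ k : ℕ, 2 ≤ k → (((lns E).filter fun l => k ≤ l.card).card : ℝ) ≤
      C₀ * ((E.card : ℝ) ^ 2 / (k : ℝ) ^ 3 + (E.card : ℝ) / k))
    {K M : ℕ} (hK : 2 ≤ K) (F : Finset (Finset V3)) (hF : F ⊆ lns E)
    (h1 : ∀ l ∈ F, K ≤ l.card) (h2 : ∀ l ∈ F, l.card ≤ M) (hKM : K ≤ M) :
    ∑ l ∈ F, ((l.card : ℝ)) ^ 2 ≤
      C₀ * (3 * (E.card : ℝ) ^ 2 / K + (E.card : ℝ) * K + 2 * (E.card : ℝ) * M) := by
  have hn : (0 : ℝ) ≤ (E.card : ℝ) := by positivity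
  have hK0 : (0 : ℝ) < K := by
    have : 0 < K := by omega
    exact_mod_cast this
  have e1 : ∀ l ∈ F, ((l.card : ℝ)) ^ 2 =
      (K : ℝ) ^ 2 + ∑ j ∈ Ico K M, (if j < l.card then (2 * (j : ℝ) + 1) else 0) := by
    intro l hl
    rw [BSum_sq K l.card (h1 l hl)]
    congr 1
    rw [← Finset.sum_filter]
    apply Finset.sum_congr _ (fun _ _ => rfl)
    ext j
    have := h2 l hl
    simp only [Finset.mem_Ico, Finset.mem_filter]
    omega
  rw [Finset.sum_congr rfl e1, Finset.sum_add_distrib, Finset.sum_comm]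
  have e2 : ∑ l ∈ F, (K : ℝ) ^ 2 = (F.card : ℝ) * (K : ℝ) ^ 2 := by
    rw [Finset.sum_const, nsmul_eq_mul]
  have hFc : (F.card : ℝ) ≤ C₀ * ((E.card : ℝ) ^ 2 / (K : ℝ) ^ 3 + (E.card : ℝ) / K) := by
    refine le_trans ?_ (hr K hK)
    have : F.card ≤ ((lns E).filter fun l => K ≤ l.card).card := by
      apply Finset.card_le_card
      intro l hl
      exact Finset.mem_filter.2 ⟨hF hl, h1 l hl⟩
    exact_mod_cast this
  have e3 : (F.card : ℝ) * (K : ℝ) ^ 2 ≤ C₀ * ((E.card : ℝ) ^ 2 / K + (E.card : ℝ) * K) := by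
    calc (F.card : ℝ) * (K : ℝ) ^ 2
        ≤ (C₀ * ((E.card : ℝ) ^ 2 / (K : ℝ) ^ 3 + (E.card : ℝ) / K)) * (K : ℝ) ^ 2 :=
          mul_le_mul_of_nonneg_right hFc (by positivity)
      _ = C₀ * ((E.card : ℝ) ^ 2 / K + (E.card : ℝ) * K) := by
          field_simp
  have e4 : ∀ j ∈ Ico K M, ∑ l ∈ F, (if j < l.card then (2 * (j : ℝ) + 1) else 0) ≤
      C₀ * (2 * (E.card : ℝ) ^ 2 * (1 / ((j : ℝ) + 1) ^ 2) + 2 * (E.card : ℝ)) := by
    intro j hj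
    rw [Finset.mem_Ico] at hj
    rw [← Finset.sum_filter, Finset.sum_const, nsmul_eq_mul]
    have hc : ((F.filter fun l => j < l.card).card : ℝ) ≤
        C₀ * ((E.card : ℝ) ^ 2 / ((j : ℝ) + 1) ^ 3 + (E.card : ℝ) / ((j : ℝ) + 1)) := by
      have h3 := hr (j + 1) (by omega)
      push_cast at h3
      refine le_trans ?_ h3
      have : (F.filter fun l => j < l.card).card ≤
          ((lns E).filter fun l => j + 1 ≤ l.card).card := by
        apply Finset.card_le_card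
        intro l hl
        rw [Finset.mem_filter] at hl ⊢
        exact ⟨hF hl.1, hl.2⟩
      exact_mod_cast this
    have hj0 : (0 : ℝ) ≤ (j : ℝ) := by positivity
    calc ((F.filter fun l => j < l.card).card : ℝ) * (2 * (j : ℝ) + 1)
        ≤ (C₀ * ((E.card : ℝ) ^ 2 / ((j : ℝ) + 1) ^ 3 + (E.card : ℝ) / ((j : ℝ) + 1))) *
          (2 * ((j : ℝ) + 1)) := by
          apply mul_le_mul hc (by linarith) (by positivity)
          have : 0 ≤ C₀ := by linarith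
          positivity
      _ = C₀ * (2 * (E.card : ℝ) ^ 2 * (1 / ((j : ℝ) + 1) ^ 2) + 2 * (E.card : ℝ)) := by
          field_simp
  have e5 := Finset.sum_le_sum e4
  rw [← Finset.mul_sum, Finset.sum_add_distrib, ← Finset.mul_sum, Finset.sum_const, nsmul_eq_mul,
    Nat.card_Ico] at e5
  have e6 := BSum_tel K M (by omega) hKM
  have e7 : (2 * (E.card : ℝ) ^ 2) * ∑ j ∈ Ico K M, (1 / ((j : ℝ) + 1) ^ 2) ≤
      (2 * (E.card : ℝ) ^ 2) * (1 / (K : ℝ)) := by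
    apply mul_le_mul_of_nonneg_left _ (by positivity)
    have : (0 : ℝ) ≤ 1 / (M : ℝ) := by positivity
    linarith
  have e8 : ((M - K : ℕ) : ℝ) * (2 * (E.card : ℝ)) ≤ (M : ℝ) * (2 * (E.card : ℝ)) := by
    apply mul_le_mul_of_nonneg_right _ (by positivity)
    have : M - K ≤ M := Nat.sub_le _ _
    exact_mod_cast this
  have e9 : C₀ * ((2 * (E.card : ℝ) ^ 2) * ∑ j ∈ Ico K M, (1 / ((j : ℝ) + 1) ^ 2) +
      ((M - K : ℕ) : ℝ) * (2 * (E.card : ℝ))) ≤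
      C₀ * ((2 * (E.card : ℝ) ^ 2) * (1 / (K : ℝ)) + (M : ℝ) * (2 * (E.card : ℝ))) :=
    mul_le_mul_of_nonneg_left (by linarith) (by linarith)
  rw [e2]
  calc _ ≤ C₀ * ((E.card : ℝ) ^ 2 / K + (E.card : ℝ) * K) +
      C₀ * ((2 * (E.card : ℝ) ^ 2) * (1 / (K : ℝ)) + (M : ℝ) * (2 * (E.card : ℝ))) := by
        linarith
    _ = _ := by
        field_simp
        ring


theorem bsum : ∃ (c : ℝ) (K n₀ : ℕ), 0 < c ∧ 2 ≤ K ∧ ∀ E : Finset V3, n₀ ≤ E.card →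
    ((∑ l ∈ (lns E).filter (fun l => K ≤ l.card ∧ (l.card : ℝ) ≤ c * E.card), l.card ^ 2 : ℕ) : ℝ) ≤
      (E.card : ℝ) ^ 2 / 8 := by
  obtain ⟨C₀, hC, hr⟩ := rich
  have hC0 : 0 < C₀ := by linarith
  refine ⟨1 / (48 * C₀), ⌈144 * C₀⌉₊, ⌈48 * (⌈144 * C₀⌉₊ : ℝ) * C₀⌉₊, by positivity, ?_, ?_⟩
  · have h1 : (144 : ℝ) ≤ (⌈144 * C₀⌉₊ : ℝ) := by
      have := Nat.le_ceil (144 * C₀)
      linarith
    have h2 : (144 : ℕ) ≤ ⌈144 * C₀⌉₊ := by exact_mod_cast h1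
    omega
  intro E hE
  set K := ⌈144 * C₀⌉₊ with hKdef
  have hK1 : 144 * C₀ ≤ (K : ℝ) := Nat.le_ceil _
  have hK2 : 2 ≤ K := by
    have h1 : (144 : ℝ) ≤ (K : ℝ) := by linarith
    have h2 : (144 : ℕ) ≤ K := by exact_mod_cast h1
    omega
  have hK0 : (0 : ℝ) < K := by
    have : 0 < K := by omega
    exact_mod_cast this
  have hEn : 48 * (K : ℝ) * C₀ ≤ (E.card : ℝ) := by
    have h1 := Nat.le_ceil (48 * (K : ℝ) * C₀)
    have h2 : ((⌈48 * (K : ℝ) * C₀⌉₊ : ℕ) : ℝ) ≤ (E.card : ℝ) := by exact_mod_cast hE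
    linarith
  have hn : (0 : ℝ) ≤ (E.card : ℝ) := by positivity
  set M := ⌊1 / (48 * C₀) * (E.card : ℝ)⌋₊ with hMdef
  have hM : (M : ℝ) ≤ 1 / (48 * C₀) * (E.card : ℝ) := Nat.floor_le (by positivity)
  have hKM : K ≤ M := by
    apply Nat.le_floor
    rw [div_mul_eq_mul_div, le_div_iff₀ (by positivity)]
    nlinarith
  have key := BSum_main hC (hr E) hK2
    ((lns E).filter (fun l => K ≤ l.card ∧ (l.card : ℝ) ≤ 1 / (48 * C₀) * E.card))
    (Finset.filter_subset _ _) (fun l hl => ((Finset.mem_filter.1 hl).2).1)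
    (fun l hl => Nat.le_floor ((Finset.mem_filter.1 hl).2).2) hKM
  push_cast
  refine le_trans key ?_
  have a1 : C₀ * (3 * (E.card : ℝ) ^ 2 / K) ≤ (E.card : ℝ) ^ 2 / 48 := by
    rw [← mul_div_assoc, div_le_div_iff₀ hK0 (by norm_num)]
    have : (E.card : ℝ) ^ 2 * (144 * C₀) ≤ (E.card : ℝ) ^ 2 * K :=
      mul_le_mul_of_nonneg_left hK1 (by positivity)
    nlinarith
  have a2 : C₀ * ((E.card : ℝ) * K) ≤ (E.card : ℝ) ^ 2 / 48 := by
    have : (E.card : ℝ) * (48 * (K : ℝ) * C₀) ≤ (E.card : ℝ) * (E.card : ℝ) :=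
      mul_le_mul_of_nonneg_left hEn hn
    nlinarith
  have a3 : C₀ * (2 * (E.card : ℝ) * M) ≤ (E.card : ℝ) ^ 2 / 24 := by
    have h1 : C₀ * (2 * (E.card : ℝ)) * M ≤ C₀ * (2 * (E.card : ℝ)) * (1 / (48 * C₀) * (E.card : ℝ)) :=
      mul_le_mul_of_nonneg_left hM (by positivity)
    have h2 : C₀ * (2 * (E.card : ℝ)) * (1 / (48 * C₀) * (E.card : ℝ)) = (E.card : ℝ) ^ 2 / 24 := by
      field_simp
      ring
    nlinarith
  have a4 : (0 : ℝ) ≤ (E.card : ℝ) ^ 2 := by positivity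
  nlinarith

end Pool.Agent.H39.ND
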