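import Pool.Agent.H39.ND.Defs

/-!
# Module Bas (110 lines): elementary facts on `Par`, `Cl`, `ln`

PROOF. `par_smul`: if `v ≠ 0` some coordinate of `v` is nonzero, take `r` = quotient of these
coordinates. `par_trans` from `par_smul` (or directly). `cl_rot`: linear combinations of the three
equations (`(a - b) × (c - b) = (a - b) × (c - a)` up to sign). `cl_line`: `x - a = r (b - a)`,
`y - a = r' (b - a)`, `z - a = r'' (b - a)` by `par_smul`; substitute. `ip_line`: `c = a + r (b - a)`.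
-/

namespace Pool.Agent.H39.ND

open Finset
open scoped Classical

theorem par_comm {u v : V3} (h : Par u v) : Par v u :=
  ⟨by linarith [h.1], by linarith [h.2.1], by linarith [h.2.2]⟩

theorem par_smul {u v : V3} (hv : v ≠ 0) (h : Par u v) : ∃ r : ℝ, u = r • v := by
  obtain ⟨u1, u2, u3⟩ := u
  obtain ⟨v1, v2, v3⟩ := v
  obtain ⟨h1, h2, h3⟩ := h
  simp only at h1 h2 h3
  by_cases k1 : v1 = 0
  · by_cases k2 : v2 = 0
    · have k3 : v3 ≠ 0 := by
        intro k3
        apply hv
        rw [k1, k2, k3]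
        rfl
      subst k1
      subst k2
      refine ⟨u3 / v3, ?_⟩
      have e1 : u1 = 0 := by
        have : u1 * v3 = 0 := by linarith
        exact (mul_eq_zero.1 this).resolve_right k3
      have e2 : u2 = 0 := by
        have : u2 * v3 = 0 := by linarith
        exact (mul_eq_zero.1 this).resolve_right k3
      simp only [Prod.smul_mk, smul_eq_mul, mul_zero, Prod.mk.injEq]
      exact ⟨e1, e2, (div_mul_cancel₀ u3 k3).symm⟩
    · subst k1
      refine ⟨u2 / v2, ?_⟩
      have e1 : u1 = 0 := by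
        have : u1 * v2 = 0 := by linarith
        exact (mul_eq_zero.1 this).resolve_right k2
      simp only [Prod.smul_mk, smul_eq_mul, mul_zero, Prod.mk.injEq]
      refine ⟨e1, (div_mul_cancel₀ u2 k2).symm, ?_⟩
      rw [div_mul_eq_mul_div, eq_div_iff k2]
      linarith
  · refine ⟨u1 / v1, ?_⟩
    simp only [Prod.smul_mk, smul_eq_mul, Prod.mk.injEq]
    refine ⟨(div_mul_cancel₀ u1 k1).symm, ?_, ?_⟩
    · rw [div_mul_eq_mul_div, eq_div_iff k1]
      linarith
    · rw [div_mul_eq_mul_div, eq_div_iff k1]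
      linarith

private theorem bas_smul_smul (r t : ℝ) (v : V3) : Par (r • v) (t • v) := by
  unfold Par
  simp only [Prod.smul_fst, Prod.smul_snd, smul_eq_mul]
  refine ⟨by ring, by ring, by ring⟩

theorem smul_par (r : ℝ) (v : V3) : Par (r • v) v := by
  have h := bas_smul_smul r 1 v
  rwa [one_smul] at h

theorem par_trans {u v w : V3} (hv : v ≠ 0) (h : Par u v) (h' : Par v w) : Par u w := by
  obtain ⟨r, rfl⟩ := par_smul hv h
  obtain ⟨h1, h2, h3⟩ := h'
  unfold Par
  simp only [Prod.smul_fst, Prod.smul_snd, smul_eq_mul]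
  refine ⟨by linear_combination r * h1, by linear_combination r * h2, by linear_combination r * h3⟩

theorem ip_par {u v w : V3} (hv : v ≠ 0) (h : Par u v) (h' : ip v w = 0) : ip u w = 0 := by
  obtain ⟨r, rfl⟩ := par_smul hv h
  unfold ip at h' ⊢
  simp only [Prod.smul_fst, Prod.smul_snd, smul_eq_mul]
  linear_combination r * h'

theorem cl_swap {a b c : V3} (h : Cl a b c) : Cl a c b := par_comm h

theorem cl_rot {a b c : V3} (h : Cl a b c) : Cl b a c := by
  obtain ⟨h1, h2, h3⟩ := h
  simp only [Prod.fst_sub, Prod.snd_sub] at h1 h2 h3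
  unfold Cl Par
  simp only [Prod.fst_sub, Prod.snd_sub]
  refine ⟨by linear_combination (-1) * h1, by linear_combination (-1) * h2,
    by linear_combination (-1) * h3⟩

theorem cl_self (a b : V3) : Cl a b a := by
  unfold Cl
  have h := bas_smul_smul 1 0 (b - a)
  rwa [one_smul, zero_smul, ← sub_self a] at h

theorem cl_self' (a b : V3) : Cl a b b := by
  unfold Cl
  have h := bas_smul_smul 1 1 (b - a)
  rwa [one_smul] at h

theorem cl_add {a b c g : V3} : Cl (a + g) (b + g) (c + g) ↔ Cl a b c := by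
  unfold Cl
  rw [add_sub_add_right_eq_sub, add_sub_add_right_eq_sub]

/-- three points of the line `a b` are on a line -/
theorem cl_line {a b x y z : V3} (hab : a ≠ b) (hx : Cl a b x) (hy : Cl a b y) (hz : Cl a b z) :
    Cl x y z := by
  have hv : b - a ≠ 0 := sub_ne_zero.2 hab.symm
  obtain ⟨r, hr⟩ := par_smul hv (par_comm hx)
  obtain ⟨s, hs⟩ := par_smul hv (par_comm hy)
  obtain ⟨t, ht⟩ := par_smul hv (par_comm hz)
  unfold Cl
  have e1 : y - x = (s - r) • (b - a) := by
    rw [sub_smul, ← hs, ← hr]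
    abel
  have e2 : z - x = (t - r) • (b - a) := by
    rw [sub_smul, ← ht, ← hr]
    abel
  rw [e1, e2]
  exact bas_smul_smul _ _ _

/-- a line with two different points of a plane is in the plane -/
theorem ip_line {a b x w : V3} {f : ℝ} (hab : a ≠ b) (hx : Cl a b x) (ha : ip a w = f)
    (hb : ip b w = f) : ip x w = f := by
  have hv : b - a ≠ 0 := sub_ne_zero.2 hab.symm
  obtain ⟨r, hr⟩ := par_smul hv (par_comm hx)
  have e1 : x.1 - a.1 = r * (b.1 - a.1) := congrArg Prod.fst hr
  have e2 : x.2.1 - a.2.1 = r * (b.2.1 - a.2.1) := congrArg (fun v : V3 => v.2.1) hr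
  have e3 : x.2.2 - a.2.2 = r * (b.2.2 - a.2.2) := congrArg (fun v : V3 => v.2.2) hr
  unfold ip at *
  linear_combination w.1 * e1 + w.2.1 * e2 + w.2.2 * e3 + r * hb + (1 - r) * ha

theorem mem_ln {A : Finset V3} {a b c : V3} : c ∈ ln A a b ↔ c ∈ A ∧ Cl a b c := by
  unfold ln; rw [mem_filter]

theorem mem_pl {A : Finset V3} {w : V3} {f : ℝ} {x : V3} : x ∈ pl A w f ↔ x ∈ A ∧ ip x w = f := by
  unfold pl; rw [mem_filter]

/-- `ln A a b` is on a line -/
theorem col_ln {A : Finset V3} {a b : V3} (hab : a ≠ b) : Col (ln A a b) :=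
  fun _ hx _ hy _ hz => cl_line hab (mem_ln.1 hx).2 (mem_ln.1 hy).2 (mem_ln.1 hz).2

/-- if `x ≠ y` are on the line `a b` then `ln A a b = ln A x y` -/
theorem ln_eq {A : Finset V3} {a b x y : V3} (hab : a ≠ b) (hxy : x ≠ y) (hx : Cl a b x)
    (hy : Cl a b y) : ln A a b = ln A x y := by
  ext c
  rw [mem_ln, mem_ln]
  constructor
  · rintro ⟨hc, h⟩
    exact ⟨hc, cl_line hab hx hy h⟩
  · rintro ⟨hc, h⟩
    exact ⟨hc, cl_line hxy (cl_line hab hx hy (cl_self a b)) (cl_line hab hx hy (cl_self' a b)) h⟩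

/-- two lines `ln A a b`, `ln A c d` with collinear union are equal -/
theorem ln_union {A : Finset V3} {a b c d : V3} (hab : a ≠ b) (hcd : c ≠ d) (ha : a ∈ A) (hb : b ∈ A)
    (hc : c ∈ A) (hd : d ∈ A) (h : Col (ln A a b ∪ ln A c d)) : ln A a b = ln A c d := by
  have ha' : a ∈ ln A a b ∪ ln A c d := mem_union_left _ (mem_ln.2 ⟨ha, cl_self a b⟩)
  have hb' : b ∈ ln A a b ∪ ln A c d := mem_union_left _ (mem_ln.2 ⟨hb, cl_self' a b⟩)
  have hc' : c ∈ ln A a b ∪ ln A c d := mem_union_right _ (mem_ln.2 ⟨hc, cl_self c d⟩)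
  have hd' : d ∈ ln A a b ∪ ln A c d := mem_union_right _ (mem_ln.2 ⟨hd, cl_self' c d⟩)
  exact ln_eq hab hcd (h a ha' b hb' c hc') (h a ha' b hb' d hd')

end Pool.Agent.H39.ND
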