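import Pool.Agent.H39.ND.BSum
import Pool.Agent.H39.ND.BDir

/-!
# Module Beck (120 lines): Beck's theorem, weak form

PROOF. `c₀, K, n₀` from `bsum`; `c = min (min c₀ (1 / (4 K))) (1/2)`, `r₀ = max n₀ 8`, `n = |E| ≥ r₀`. Suppose the first
alternative fails: every `l ∈ lns E` has `|l| < c n ≤ c₀ n` (`lns_sub`, `lns_col`). So by `bsum` the lines
with `K ≤ |l|` have `∑ |l|² ≤ n²/8`, and by `lns_pairs` at most `n²/8` pairs `(a, b) ∈ E.offDiag` have
`K ≤ |ln E a b|`. The other pairs are at least `n² - n - n²/8 ≥ 3 n² / 4` (`n ≥ 8`). Put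
`B q = E.filter (fun b => b ≠ q ∧ |ln E q b| < K)`, `d q = |B q|`, `∑ q ∈ E, d q ≥ 3 n²/4`. Let
`Q = E.filter (n / 4 ≤ d q)` (reals): `3 n²/4 ≤ ∑ d q ≤ |Q| n + (n - |Q|) n / 4 ≤ |Q| n + n²/4`, so `|Q| ≥ n/2 ≥ c n`.
For `q ∈ Q` apply `bdir` to `B q` and `K`: for `a ∈ B q` the set `(B q).filter (Cl q a)` is in `ln E q a`, which
has less than `K` points. So `Sees q E (d q / K)`, and `d q / K ≥ n / (4 K) ≥ c n`
(`Sees` is monotone in `k`).
-/

namespace Pool.Agent.H39.ND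

open Finset
open scoped Classical

theorem sees_mono {q : V3} {E E' : Finset V3} {k k' : ℝ} (h : Sees q E k) (hE : E ⊆ E')
    (hk : k' ≤ k) : Sees q E' k' := by
  obtain ⟨F, hF, hq, hc, hn⟩ := h
  exact ⟨F, hF.trans hE, hq, hk.trans hc, hn⟩

/-- the good partners of `q` -/
private noncomputable def BeckB (E : Finset V3) (K : ℕ) (q : V3) : Finset V3 :=
  E.filter fun b => b ≠ q ∧ (ln E q b).card < K

private theorem Beck_sum (E : Finset V3) (K : ℕ) :
    (E.offDiag.filter fun q => ¬ K ≤ (ln E q.1 q.2).card).card ≤ ∑ q ∈ E, (BeckB E K q).card := by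
  have h1 : (E.offDiag.filter fun q => ¬ K ≤ (ln E q.1 q.2).card) ⊆
      E.biUnion fun q => (BeckB E K q).image fun b => (q, b) := by
    rintro ⟨x, y⟩ hxy
    rw [mem_filter, mem_offDiag] at hxy
    obtain ⟨⟨hx, hy, hne⟩, hk⟩ := hxy
    rw [mem_biUnion]
    refine ⟨x, hx, mem_image.2 ⟨y, ?_, rfl⟩⟩
    unfold BeckB
    rw [mem_filter]
    exact ⟨hy, fun h => hne h.symm, not_le.1 hk⟩
  refine (card_le_card h1).trans (card_biUnion_le.trans ?_)
  exact sum_le_sum fun q _ => card_image_le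

theorem beck : ∃ (c : ℝ) (r₀ : ℕ), 0 < c ∧ c ≤ 1 / 2 ∧ 3 ≤ r₀ ∧ ∀ E : Finset V3, r₀ ≤ E.card →
    (∃ L ⊆ E, Col L ∧ c * E.card ≤ (L.card : ℝ)) ∨
    ∃ Q ⊆ E, c * E.card ≤ (Q.card : ℝ) ∧ ∀ q ∈ Q, Sees q E (c * E.card) := by
  obtain ⟨c₀, K, n₀, hc₀, hK, hb⟩ := bsum
  have hK0 : (0 : ℝ) < K := by
    have : 0 < K := by omega
    exact_mod_cast this
  refine ⟨min (min c₀ (1 / (4 * K))) (1 / 2), max n₀ 8, ?_, min_le_right _ _,
    le_trans (by norm_num) (le_max_right n₀ 8), ?_⟩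
  · exact lt_min (lt_min hc₀ (by positivity)) (by norm_num)
  intro E hE
  set c := min (min c₀ (1 / (4 * (K : ℝ)))) (1 / 2) with hc
  have hcc : c ≤ c₀ := (min_le_left _ _).trans (min_le_left _ _)
  have hcK : c ≤ 1 / (4 * (K : ℝ)) := (min_le_left _ _).trans (min_le_right _ _)
  have hch : c ≤ 1 / 2 := min_le_right _ _
  have hn8 : (8 : ℝ) ≤ (E.card : ℝ) := by
    have : 8 ≤ E.card := (le_max_right n₀ 8).trans hE
    exact_mod_cast this
  have hn0 : (0 : ℝ) < (E.card : ℝ) := by linarith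
  by_cases h1 : ∃ L ⊆ E, Col L ∧ c * E.card ≤ (L.card : ℝ)
  · exact Or.inl h1
  right
  have h2 : ∀ l ∈ lns E, (l.card : ℝ) ≤ c₀ * E.card := by
    intro l hl
    by_contra h3
    apply h1
    refine ⟨l, lns_sub hl, lns_col hl, ?_⟩
    push Not at h3
    have : c * (E.card : ℝ) ≤ c₀ * E.card := mul_le_mul_of_nonneg_right hcc hn0.le
    linarith
  -- few pairs on rich lines
  have h3 : ((E.offDiag.filter fun q => K ≤ (ln E q.1 q.2).card).card : ℝ) ≤
      (E.card : ℝ) ^ 2 / 8 := by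
    refine le_trans ?_ (hb E ((le_max_left n₀ 8).trans hE))
    have e0 : (E.offDiag.filter fun q => K ≤ (ln E q.1 q.2).card).card =
        ∑ l ∈ (lns E).filter (fun l => K ≤ l.card), (l.card * l.card - l.card) := by
      convert lns_pairs E (fun l => K ≤ l.card)
    rw [e0]
    have e1 : ((lns E).filter fun l => K ≤ l.card) =
        (lns E).filter (fun l => K ≤ l.card ∧ (l.card : ℝ) ≤ c₀ * E.card) := by
      ext l
      rw [mem_filter, mem_filter]
      exact ⟨fun h => ⟨h.1, h.2, h2 l h.1⟩, fun h => ⟨h.1, h.2.1⟩⟩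
    rw [e1]
    have e2 : ∑ l ∈ (lns E).filter (fun l => K ≤ l.card ∧ (l.card : ℝ) ≤ c₀ * E.card),
        (l.card * l.card - l.card) ≤
        ∑ l ∈ (lns E).filter (fun l => K ≤ l.card ∧ (l.card : ℝ) ≤ c₀ * E.card), l.card ^ 2 := by
      apply sum_le_sum
      intro l _
      rw [pow_two]
      exact Nat.sub_le _ _
    exact_mod_cast e2
  have h4 : (E.offDiag.card : ℝ) = (E.card : ℝ) ^ 2 - E.card := by
    rw [offDiag_card, Nat.cast_sub (Nat.le_mul_self _)]
    push_cast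
    ring
  have h5 : (E.offDiag.filter fun q => K ≤ (ln E q.1 q.2).card).card +
      (E.offDiag.filter fun q => ¬ K ≤ (ln E q.1 q.2).card).card = E.offDiag.card :=
    card_filter_add_card_filter_not _
  have h6 : (((E.offDiag.filter fun q => K ≤ (ln E q.1 q.2).card).card : ℝ)) +
      ((E.offDiag.filter fun q => ¬ K ≤ (ln E q.1 q.2).card).card : ℝ) = (E.offDiag.card : ℝ) := by
    exact_mod_cast h5
  have h7 : ((E.offDiag.filter fun q => ¬ K ≤ (ln E q.1 q.2).card).card : ℝ) ≤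
      ∑ q ∈ E, ((BeckB E K q).card : ℝ) := by
    exact_mod_cast Beck_sum E K
  have h8 : 3 * (E.card : ℝ) ^ 2 / 4 ≤ ∑ q ∈ E, ((BeckB E K q).card : ℝ) := by
    nlinarith
  set Q := E.filter fun q => (E.card : ℝ) / 4 ≤ ((BeckB E K q).card : ℝ) with hQ
  have h9 : ∑ q ∈ E, ((BeckB E K q).card : ℝ) ≤
      ∑ q ∈ E, ((E.card : ℝ) / 4 + if (E.card : ℝ) / 4 ≤ ((BeckB E K q).card : ℝ) then
        (E.card : ℝ) else 0) := by
    apply sum_le_sum
    intro q _
    split_ifs with h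
    · have h10 : ((BeckB E K q).card : ℝ) ≤ (E.card : ℝ) := by
        exact_mod_cast card_le_card (filter_subset _ _)
      linarith
    · push Not at h
      linarith
  have h10 : ∑ q ∈ E, ((E.card : ℝ) / 4 + if (E.card : ℝ) / 4 ≤ ((BeckB E K q).card : ℝ) then
        (E.card : ℝ) else 0) = (E.card : ℝ) * ((E.card : ℝ) / 4) + (Q.card : ℝ) * E.card := by
    rw [sum_add_distrib, sum_const, nsmul_eq_mul, ← sum_filter, sum_const, nsmul_eq_mul]
  have h11 : (E.card : ℝ) / 2 ≤ (Q.card : ℝ) := by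
    rw [h10] at h9
    have h12 : (E.card : ℝ) / 2 * E.card ≤ (Q.card : ℝ) * E.card := by
      nlinarith
    exact le_of_mul_le_mul_right h12 hn0
  refine ⟨Q, filter_subset _ _, ?_, ?_⟩
  · have : c * (E.card : ℝ) ≤ 1 / 2 * E.card := mul_le_mul_of_nonneg_right hch hn0.le
    linarith
  intro q hq
  have hq1 : (E.card : ℝ) / 4 ≤ ((BeckB E K q).card : ℝ) := (mem_filter.1 hq).2
  have hs := bdir q E (BeckB E K q) (filter_subset _ _)
    (fun h => (mem_filter.1 h).2.1 rfl) K (by omega) (by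
      intro a ha
      have ha2 := (mem_filter.1 ha).2.2
      have hsub : ((BeckB E K q).filter fun b => Cl q a b) ⊆ ln E q a := by
        intro b hb
        rw [mem_filter] at hb
        exact mem_ln.2 ⟨(mem_filter.1 hb.1).1, hb.2⟩
      exact (card_le_card hsub).trans ha2.le)
  refine sees_mono hs subset_rfl ?_
  rw [le_div_iff₀ hK0]
  have e1 : c * (E.card : ℝ) * K ≤ 1 / (4 * (K : ℝ)) * E.card * K := by
    apply mul_le_mul_of_nonneg_right _ hK0.le
    exact mul_le_mul_of_nonneg_right hcK hn0.le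
  have e2 : 1 / (4 * (K : ℝ)) * (E.card : ℝ) * K = (E.card : ℝ) / 4 := by
    field_simp
  linarith

end Pool.Agent.H39.ND
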