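import Pool.Agent.H39.ND.Bas

/-!
# Module Circ (80 lines): three points determine a circle

PROOF of `circ`. `d = q - q' ≠ 0`, `d.1 x + d.2.1 y + d.2.2 = 0` for the three points. `(d.1, d.2.1) ≠ 0` (otherwise
`d.2.2 = 0` as well). So `p₂ - p₁ = λ v`, `p₃ - p₁ = μ v` with `v = (-d.2.1, d.1) ≠ 0`. Subtract the equations of
the circle `q` at `p₁` and `p₁ + λ v`: `λ (2 p₁·v + λ |v|² - (q.1, q.2.1)·v) = 0`. If `λ = 0`: `p₂ = p₁`. Likewise
`μ`. If both are nonzero: `λ |v|² = μ |v|²`, so `λ = μ`, `p₂ = p₃`.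
`circ_kf`: `B` contains `q ≠ q'` (`Finset.one_lt_card`); if the filter had three elements
(`Finset.two_lt_card`) `circ` gives a contradiction. `ip q (lift p) = q.1 * p.1 + q.2.1 * p.2 + q.2.2 * 1`.
-/

namespace Pool.Agent.H39.ND

open Finset
open scoped Classical

private theorem Circ_dir {a b X Y : ℝ} (hN : 0 < a ^ 2 + b ^ 2) (h : a * X + b * Y = 0) :
    ∃ l : ℝ, X = - l * b ∧ Y = l * a := by
  refine ⟨(a * Y - b * X) / (a ^ 2 + b ^ 2), ?_, ?_⟩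
  · rw [← mul_right_inj' hN.ne']
    have : (a ^ 2 + b ^ 2) * (-((a * Y - b * X) / (a ^ 2 + b ^ 2)) * b) = -(a * Y - b * X) * b := by
      field_simp
    rw [this]
    linear_combination a * h
  · rw [← mul_right_inj' hN.ne']
    have : (a ^ 2 + b ^ 2) * ((a * Y - b * X) / (a ^ 2 + b ^ 2) * a) = (a * Y - b * X) * a := by
      field_simp
    rw [this]
    linear_combination b * h

private theorem Circ_eq {q1 q2 q3 x y a b l : ℝ} (h1 : q1 * x + q2 * y + q3 = x ^ 2 + y ^ 2)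
    (h2 : q1 * (x - l * b) + q2 * (y + l * a) + q3 = (x - l * b) ^ 2 + (y + l * a) ^ 2) :
    l = 0 ∨ l * (a ^ 2 + b ^ 2) = q2 * a - q1 * b + 2 * (x * b - y * a) := by
  have : l * (l * (a ^ 2 + b ^ 2) - (q2 * a - q1 * b + 2 * (x * b - y * a))) = 0 := by
    linear_combination h1 - h2
  rcases mul_eq_zero.1 this with h | h
  · exact Or.inl h
  · exact Or.inr (by linarith)

theorem circ {q q' : V3} (h : q ≠ q') (p₁ p₂ p₃ : ℝ × ℝ)
    (h1 : ip q (lift p₁) = p₁.1 ^ 2 + p₁.2 ^ 2) (h1' : ip q' (lift p₁) = p₁.1 ^ 2 + p₁.2 ^ 2)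
    (h2 : ip q (lift p₂) = p₂.1 ^ 2 + p₂.2 ^ 2) (h2' : ip q' (lift p₂) = p₂.1 ^ 2 + p₂.2 ^ 2)
    (h3 : ip q (lift p₃) = p₃.1 ^ 2 + p₃.2 ^ 2) (h3' : ip q' (lift p₃) = p₃.1 ^ 2 + p₃.2 ^ 2) :
    p₁ = p₂ ∨ p₁ = p₃ ∨ p₂ = p₃ := by
  obtain ⟨q1, q2, q3⟩ := q
  obtain ⟨r1, r2, r3⟩ := q'
  obtain ⟨x1, y1⟩ := p₁
  obtain ⟨x2, y2⟩ := p₂
  obtain ⟨x3, y3⟩ := p₃
  simp only [ip, lift, mul_one] at h1 h1' h2 h2' h3 h3'
  have hab : ¬ (q1 - r1 = 0 ∧ q2 - r2 = 0) := by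
    rintro ⟨ha, hb⟩
    apply h
    have e1 : q1 = r1 := by linarith
    have e2 : q2 = r2 := by linarith
    subst e1 e2
    have e3 : q3 = r3 := by linarith
    rw [e3]
  have hN : 0 < (q1 - r1) ^ 2 + (q2 - r2) ^ 2 := by
    by_contra hc
    apply hab
    have h1 : 0 ≤ (q1 - r1) ^ 2 := sq_nonneg _
    have h2 : 0 ≤ (q2 - r2) ^ 2 := sq_nonneg _
    exact ⟨pow_eq_zero_iff (two_ne_zero) |>.1 (by linarith), pow_eq_zero_iff (two_ne_zero) |>.1 (by linarith)⟩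
  obtain ⟨l, hl1, hl2⟩ := Circ_dir (X := x2 - x1) (Y := y2 - y1) hN (by linear_combination h2 - h2' - h1 + h1')
  obtain ⟨m, hm1, hm2⟩ := Circ_dir (X := x3 - x1) (Y := y3 - y1) hN (by linear_combination h3 - h3' - h1 + h1')
  have ex2 : x2 = x1 - l * (q2 - r2) := by linarith
  have ey2 : y2 = y1 + l * (q1 - r1) := by linarith
  have ex3 : x3 = x1 - m * (q2 - r2) := by linarith
  have ey3 : y3 = y1 + m * (q1 - r1) := by linarith
  have hL := Circ_eq (q1 := q1) (q2 := q2) (q3 := q3) h1 (by rw [← ex2, ← ey2]; exact h2)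
  have hM := Circ_eq (q1 := q1) (q2 := q2) (q3 := q3) h1 (by rw [← ex3, ← ey3]; exact h3)
  rcases hL with hL | hL
  · left
    rw [ex2, ey2, hL]
    simp
  · rcases hM with hM | hM
    · right; left
      rw [ex3, ey3, hM]
      simp
    · right; right
      have : l = m := by
        have h4 : (l - m) * ((q1 - r1) ^ 2 + (q2 - r2) ^ 2) = 0 := by linear_combination hL - hM
        rcases mul_eq_zero.1 h4 with h5 | h5
        · linarith
        · exact absurd h5 hN.ne'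
      rw [ex2, ey2, ex3, ey3, this]

theorem circ_kf (P : Finset (ℝ × ℝ)) (B : Finset V3) (hB : 2 ≤ B.card) :
    (P.filter fun p => ∀ q ∈ B, ip q (lift p) = p.1 ^ 2 + p.2 ^ 2).card ≤ 2 := by
  obtain ⟨q, hq, q', hq', hne⟩ := Finset.one_lt_card.1 (show 1 < B.card by omega)
  by_contra hc
  obtain ⟨a, ha, b, hb, c, hc', hab, hac, hbc⟩ := Finset.two_lt_card.1 (not_le.1 hc)
  rw [mem_filter] at ha hb hc'
  rcases circ hne a b c (ha.2 q hq) (ha.2 q' hq') (hb.2 q hq) (hb.2 q' hq') (hc'.2 q hq)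
    (hc'.2 q' hq') with h | h | h
  · exact hab h
  · exact hac h
  · exact hbc h

/-- `lift p` and `lift p'` are parallel only for `p = p'` -/
theorem lift_par {p p' : ℝ × ℝ} (h : Par (lift p') (lift p)) : p' = p := by
  obtain ⟨x, y⟩ := p
  obtain ⟨x', y'⟩ := p'
  obtain ⟨_, h2, h3⟩ := h
  simp only [lift, mul_one, one_mul] at h2 h3
  rw [h2, h3]

end Pool.Agent.H39.ND
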