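import Pool.Agent.H39.ND.OneQ

/-!
# Module CoreS (110 lines): the sum over all `q`

PROOF. `C` the constant of `oneQ`. Exchange the sums: `∑ p ∈ P, ∑ q ∈ Qs p, k p q =
∑ q ∈ S, ∑ p ∈ P_q, k p q` with `P_q = P.filter (fun p => q ∈ Qs p)` (`Finset.sum_comm'` or
`Finset.sum_sigma'`, uses `Qs p ⊆ S`). For every `q` apply `oneQ` to `P_q` (multiplicities in
`P_q` are at most those in `P`) and `k · q`. With `x q = |P_q|`, `∑ q ∈ S, x q = ∑ p ∈ P, |Qs p| = M`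
(double counting) and `∑ q ∈ S, (x q) ^ (2/3) ≤ |S| ^ (1/3) * M ^ (2/3)` (Hölder:
`Real.inner_le_Lp_mul_Lq` with exponents 3 and 3/2, or concavity, or: for all `a > 0` and `x ≥ 0`
one has `x ^ (2/3) ≤ (2/3) a^(-1/3) x + (1/3) a^(2/3)` with `a = M / |S|`). So the sum is at most
`C m (|S|^(2/3) |S|^(1/3) M^(2/3) + M + |S|²)`.
-/

namespace Pool.Agent.H39.ND

open Finset
open scoped Classical


theorem coreS : ∃ C : ℝ, 0 ≤ C ∧ ∀ (ι : Type) (P : Finset ι) (pt : ι → ℝ × ℝ) (m : ℕ),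
    (∀ p ∈ P, (P.filter fun p' => pt p' = pt p).card ≤ m) →
    ∀ (S : Finset V3) (Qs : ι → Finset V3) (k : ι → V3 → ℝ), (∀ p ∈ P, Qs p ⊆ S) →
    (∀ p ∈ P, ∀ q ∈ Qs p, Sees q (S.filter fun x => ip (x - q) (lift (pt p)) = 0) (k p q)) →
    ∑ p ∈ P, ∑ q ∈ Qs p, k p q ≤ C * m *
      ((S.card : ℝ) * ((∑ p ∈ P, (Qs p).card : ℕ) : ℝ) ^ (2 / 3 : ℝ) +
        ((∑ p ∈ P, (Qs p).card : ℕ) : ℝ) + (S.card : ℝ) ^ 2) := by
  obtain ⟨C, hC, ho⟩ := oneQ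
  refine ⟨C, hC, ?_⟩
  intro ι P pt m hm S Qs k hQ hs
  have hex : ∀ f : ι → V3 → ℝ, ∑ p ∈ P, ∑ q ∈ Qs p, f p q =
      ∑ q ∈ S, ∑ p ∈ P.filter (fun p => q ∈ Qs p), f p q := by
    intro f
    apply Finset.sum_comm'
    intro x y
    constructor
    · rintro ⟨hx, hy⟩
      exact ⟨Finset.mem_filter.2 ⟨hx, hy⟩, hQ x hx hy⟩
    · rintro ⟨hx, _⟩
      rw [Finset.mem_filter] at hx
      exact hx
  have hM : ((∑ p ∈ P, (Qs p).card : ℕ) : ℝ) =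
      ∑ q ∈ S, ((P.filter (fun p => q ∈ Qs p)).card : ℝ) := by
    have h1 := hex (fun _ _ => 1)
    simp only [Finset.sum_const, nsmul_eq_mul, mul_one] at h1
    push_cast
    exact h1
  have hone : ∀ q ∈ S, ∑ p ∈ P.filter (fun p => q ∈ Qs p), k p q ≤ C * m *
      (((P.filter (fun p => q ∈ Qs p)).card : ℝ) ^ (2 / 3 : ℝ) * (S.card : ℝ) ^ (2 / 3 : ℝ) +
        ((P.filter (fun p => q ∈ Qs p)).card : ℝ) + S.card) := by
    intro q hq
    apply ho ι (P.filter (fun p => q ∈ Qs p)) pt m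
    · intro p hp
      refine le_trans (Finset.card_le_card ?_) (hm p (Finset.mem_filter.1 hp).1)
      intro p' hp'
      rw [Finset.mem_filter] at hp' ⊢
      exact ⟨(Finset.mem_filter.1 hp'.1).1, hp'.2⟩
    · intro p hp
      rw [Finset.mem_filter] at hp
      exact hs p hp.1 q hp.2
  rw [hex k]
  refine le_trans (Finset.sum_le_sum hone) ?_
  rw [← Finset.mul_sum]
  have hCm : 0 ≤ C * (m : ℝ) := by positivity
  apply mul_le_mul_of_nonneg_left _ hCm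
  rw [Finset.sum_add_distrib, Finset.sum_add_distrib, ← Finset.sum_mul, Finset.sum_const,
    nsmul_eq_mul, hM]
  have hS0 : (0 : ℝ) ≤ (S.card : ℝ) := by positivity
  have hh : (3 : ℝ).HolderConjugate (3 / 2 : ℝ) := by
    rw [Real.holderConjugate_iff]
    norm_num
  have key := Real.inner_le_Lp_mul_Lq_of_nonneg (s := S) hh (f := fun _ => (1 : ℝ))
    (g := fun q => ((P.filter (fun p => q ∈ Qs p)).card : ℝ) ^ (2 / 3 : ℝ))
    (fun _ _ => by norm_num) (fun _ _ => by positivity)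
  have e1 : ∀ q ∈ S, (((P.filter (fun p => q ∈ Qs p)).card : ℝ) ^ (2 / 3 : ℝ)) ^ (3 / 2 : ℝ) =
      ((P.filter (fun p => q ∈ Qs p)).card : ℝ) := by
    intro q _
    rw [← Real.rpow_mul (by positivity)]
    norm_num
  rw [Finset.sum_congr rfl e1] at key
  simp only [one_mul, Real.one_rpow, Finset.sum_const, nsmul_eq_mul, mul_one] at key
  have e2 : (1 : ℝ) / (3 / 2) = 2 / 3 := by norm_num
  rw [e2] at key
  have e3 : (S.card : ℝ) ^ (1 / 3 : ℝ) * (S.card : ℝ) ^ (2 / 3 : ℝ) = S.card := by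
    rw [← Real.rpow_add_of_nonneg hS0 (by norm_num) (by norm_num)]
    norm_num
  have e4 : (∑ q ∈ S, ((P.filter (fun p => q ∈ Qs p)).card : ℝ) ^ (2 / 3 : ℝ)) *
      (S.card : ℝ) ^ (2 / 3 : ℝ) ≤
      (S.card : ℝ) * (∑ q ∈ S, ((P.filter (fun p => q ∈ Qs p)).card : ℝ)) ^ (2 / 3 : ℝ) := by
    calc _ ≤ ((S.card : ℝ) ^ (1 / 3 : ℝ) *
          (∑ q ∈ S, ((P.filter (fun p => q ∈ Qs p)).card : ℝ)) ^ (2 / 3 : ℝ)) *
          (S.card : ℝ) ^ (2 / 3 : ℝ) := mul_le_mul_of_nonneg_right key (by positivity)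
      _ = ((S.card : ℝ) ^ (1 / 3 : ℝ) * (S.card : ℝ) ^ (2 / 3 : ℝ)) *
          (∑ q ∈ S, ((P.filter (fun p => q ∈ Qs p)).card : ℝ)) ^ (2 / 3 : ℝ) := by ring
      _ = _ := by rw [e3]
  have e5 : (S.card : ℝ) * (S.card : ℝ) = (S.card : ℝ) ^ 2 := by ring
  linarith

end Pool.Agent.H39.ND
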