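import Mathlib

/-!
# H39.ND: curves whose coefficient set has small doubling (MP_d34661_co), definitions

`V3` is real three-space, `ip` the scalar product, `Par u v`: the cross product of `u` and `v` vanishes,
`Cl a b c`: the three points are on a line, `Col X`: all points of the finite set `X` are on a line,
`ln A a b`: the points of `A` on the line `a b`, `Sees q E k`: there are at least `k` points of `E`
different from `q` in pairwise different directions from `q` (opposite directions count as equal).
`lift z = (z.1, z.2, 1)`, `pl A w f`: the points of `A` in the plane `ip x w = f`.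
-/

namespace Pool.Agent.H39.ND

open Finset
open scoped Classical

/-- real three-space -/
abbrev V3 := ℝ × ℝ × ℝ

/-- the scalar product -/
def ip (u v : V3) : ℝ := u.1 * v.1 + u.2.1 * v.2.1 + u.2.2 * v.2.2

/-- the cross product of `u` and `v` vanishes -/
def Par (u v : V3) : Prop :=
  u.1 * v.2.1 = u.2.1 * v.1 ∧ u.1 * v.2.2 = u.2.2 * v.1 ∧ u.2.1 * v.2.2 = u.2.2 * v.2.1

/-- `a`, `b`, `c` are on a line -/
def Cl (a b c : V3) : Prop := Par (b - a) (c - a)

/-- all points of `X` are on a line -/
def Col (X : Finset V3) : Prop := ∀ a ∈ X, ∀ b ∈ X, ∀ c ∈ X, Cl a b c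

/-- the points of `A` on the line `a b` -/
noncomputable def ln (A : Finset V3) (a b : V3) : Finset V3 := A.filter fun c => Cl a b c

/-- from `q` at least `k` points of `E` are seen in pairwise different directions -/
def Sees (q : V3) (E : Finset V3) (k : ℝ) : Prop :=
  ∃ E' ⊆ E, q ∉ E' ∧ k ≤ (E'.card : ℝ) ∧ ∀ a ∈ E', ∀ b ∈ E', a ≠ b → ¬ Cl q a b

/-- the vector `(x, y, 1)` -/
def lift (z : ℝ × ℝ) : V3 := (z.1, z.2, 1)

/-- the points of `A` in the plane `ip x w = f` -/
noncomputable def pl (A : Finset V3) (w : V3) (f : ℝ) : Finset V3 := A.filter fun x => ip x w = f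

end Pool.Agent.H39.ND
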