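import Pool.Agent.H39.ND.Rich

/-!
# Module Deg (140 lines): planes with a rich line

PROOF. `C₀` the constant of `st3`, `m = max t 2`. The `p` with `c |A_p| < m` (`A_p = pl A (w p) (f p)`)
contribute at most `(m / c) |P|`. For the other `p` let `L_p ⊆ A_p` with `Col L_p`, `|L_p| ≥ c |A_p| ≥ m`; it has
two points `a_p ≠ b_p`; `l_p = ln A a_p b_p ⊇ L_p` and `l_p ⊆ A_p` (`ip_line`); `l_p ∈ lns A`. Let `Λ` be the set of
all these `l_p`. For `l ∈ Λ` the `p` with `l_p = l` satisfy `l ⊆ A_p` and `t ≤ |l|`, so there are at most `s` of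
them (hypothesis). So `c ∑ |A_p| ≤ ∑_p |l_p| = ∑_{l ∈ Λ} |l| |{p : l_p = l}| ≤ s ∑_{l ∈ Λ} |l|`, and `st3` for `Λ`
(`lns_union`, `lns_two`, `lns_col`, `lns_sub`) with `|Λ| ≤ |P|`. `C = (m + s C₀) / c`.
-/

namespace Pool.Agent.H39.ND

open Finset
open scoped Classical

theorem deg (s t : ℕ) (c : ℝ) (hc : 0 < c) : ∃ C : ℝ, 0 ≤ C ∧ ∀ (ι : Type) (P : Finset ι)
    (w : ι → V3) (f : ι → ℝ) (A : Finset V3),
    (∀ B ⊆ A, t ≤ B.card → (P.filter fun p => ∀ q ∈ B, ip q (w p) = f p).card ≤ s) →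
    (∀ p ∈ P, ∃ L ⊆ pl A (w p) (f p), Col L ∧ c * (pl A (w p) (f p)).card ≤ (L.card : ℝ)) →
    ((∑ p ∈ P, (pl A (w p) (f p)).card : ℕ) : ℝ) ≤
      C * ((A.card : ℝ) ^ (2 / 3 : ℝ) * (P.card : ℝ) ^ (2 / 3 : ℝ) + A.card + P.card) := by
  obtain ⟨C₀, hC₀, hst⟩ := st3
  refine ⟨((max t 2 : ℕ) + s * C₀) / c, by positivity, ?_⟩
  intro ι P w f A h1 h2
  set m : ℕ := max t 2 with hm
  have hmt : t ≤ m := le_max_left _ _
  have hm2 : 2 ≤ m := le_max_right _ _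
  set P1 : Finset ι := P.filter fun p => c * (pl A (w p) (f p)).card < (m : ℝ) with hP1
  set P2 : Finset ι := P.filter fun p => ¬ c * (pl A (w p) (f p)).card < (m : ℝ) with hP2
  have hex : ∀ p : ι, ∃ q : V3 × V3, p ∈ P2 → q.1 ≠ q.2 ∧ ip q.1 (w p) = f p ∧
      ip q.2 (w p) = f p ∧ q.1 ∈ A ∧ q.2 ∈ A ∧ m ≤ (ln A q.1 q.2).card ∧
      c * (pl A (w p) (f p)).card ≤ ((ln A q.1 q.2).card : ℝ) := by
    intro p
    by_cases hp : p ∈ P2
    · obtain ⟨hpP, hpm⟩ := mem_filter.1 hp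
      obtain ⟨L, hLA, hLc, hLn⟩ := h2 p hpP
      have hmL : m ≤ L.card := by
        have h3 : (m : ℝ) ≤ L.card := (not_lt.1 hpm).trans hLn
        exact_mod_cast h3
      obtain ⟨a, ha, b, hb, hab⟩ := Finset.one_lt_card.1 (lt_of_lt_of_le (by omega) hmL)
      have hLl : L ⊆ ln A a b := fun x hx =>
        mem_ln.2 ⟨(mem_pl.1 (hLA hx)).1, hLc a ha b hb x hx⟩
      have hcard := card_le_card hLl
      refine ⟨(a, b), fun _ => ⟨hab, (mem_pl.1 (hLA ha)).2, (mem_pl.1 (hLA hb)).2,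
        (mem_pl.1 (hLA ha)).1, (mem_pl.1 (hLA hb)).1, hmL.trans hcard, hLn.trans ?_⟩⟩
      exact_mod_cast hcard
    · exact ⟨(0, 0), fun h => absurd h hp⟩
  choose q hq using hex
  set l : ι → Finset V3 := fun p => ln A (q p).1 (q p).2 with hl
  set Λ : Finset (Finset V3) := P2.image l with hΛ
  have hlA : ∀ p, l p ⊆ A := fun p => filter_subset _ _
  have hlm : ∀ p ∈ P2, m ≤ (l p).card := fun p hp => (hq p hp).2.2.2.2.2.1
  have hsum1 : c * ((∑ p ∈ P1, (pl A (w p) (f p)).card : ℕ) : ℝ) ≤ m * P.card := by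
    push_cast
    rw [mul_sum]
    calc ∑ p ∈ P1, c * ((pl A (w p) (f p)).card : ℝ) ≤ ∑ _p ∈ P1, (m : ℝ) :=
          sum_le_sum fun p hp => (mem_filter.1 hp).2.le
      _ = P1.card * m := by rw [sum_const, nsmul_eq_mul]
      _ ≤ P.card * m := by
          apply mul_le_mul_of_nonneg_right _ (Nat.cast_nonneg m)
          exact_mod_cast card_le_card (filter_subset _ _)
      _ = m * P.card := mul_comm _ _
  have hfib : ∀ b ∈ Λ, (P2.filter fun p => l p = b).card ≤ s := by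
    intro b hb
    obtain ⟨p0, hp0, rfl⟩ := mem_image.1 hb
    refine le_trans (card_le_card ?_) (h1 (l p0) (hlA p0) (hmt.trans (hlm p0 hp0)))
    intro p hp
    obtain ⟨hp2, hpe⟩ := mem_filter.1 hp
    refine mem_filter.2 ⟨(mem_filter.1 hp2).1, fun x hx => ?_⟩
    rw [← hpe] at hx
    have h3 := hq p hp2
    exact ip_line h3.1 (mem_ln.1 hx).2 h3.2.1 h3.2.2.1
  have hsum2 : c * ((∑ p ∈ P2, (pl A (w p) (f p)).card : ℕ) : ℝ) ≤
      s * ((∑ b ∈ Λ, b.card : ℕ) : ℝ) := by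
    have h4 : c * ((∑ p ∈ P2, (pl A (w p) (f p)).card : ℕ) : ℝ) ≤
        ((∑ p ∈ P2, (l p).card : ℕ) : ℝ) := by
      push_cast
      rw [mul_sum]
      exact sum_le_sum fun p hp => (hq p hp).2.2.2.2.2.2
    refine h4.trans ?_
    have h5 : ∑ p ∈ P2, (l p).card ≤ s * ∑ b ∈ Λ, b.card := by
      rw [Finset.sum_comp (fun b : Finset V3 => b.card) l, mul_sum]
      refine sum_le_sum fun b hb => ?_
      rw [smul_eq_mul]
      exact Nat.mul_le_mul_right _ (hfib b hb)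
    exact_mod_cast h5
  have hst' := hst A (Finset V3) Λ id (fun b hb => by
      obtain ⟨p, _, rfl⟩ := mem_image.1 hb
      exact hlA p) (fun b hb => by
      obtain ⟨p, hp, rfl⟩ := mem_image.1 hb
      exact col_ln (hq p hp).1) (fun b hb => by
      obtain ⟨p, hp, rfl⟩ := mem_image.1 hb
      exact hm2.trans (hlm p hp)) (fun b hb b' hb' hbb hcol => by
      obtain ⟨p, hp, rfl⟩ := mem_image.1 hb
      obtain ⟨p', hp', rfl⟩ := mem_image.1 hb'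
      have h3 := hq p hp
      have h3' := hq p' hp'
      exact hbb (ln_union h3.1 h3'.1 h3.2.2.2.1 h3.2.2.2.2.1 h3'.2.2.2.1 h3'.2.2.2.2.1 hcol))
  simp only [id] at hst'
  have hΛP : (Λ.card : ℝ) ≤ P.card := by
    exact_mod_cast card_image_le.trans (card_le_card (filter_subset _ _))
  set X : ℝ := (A.card : ℝ) ^ (2 / 3 : ℝ) * (P.card : ℝ) ^ (2 / 3 : ℝ) + A.card + P.card with hX
  have hXP : (P.card : ℝ) ≤ X := by
    have h6 : 0 ≤ (A.card : ℝ) ^ (2 / 3 : ℝ) * (P.card : ℝ) ^ (2 / 3 : ℝ) := by positivity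
    have h7 : (0 : ℝ) ≤ A.card := Nat.cast_nonneg _
    rw [hX]
    linarith
  have hst2 : ((∑ b ∈ Λ, b.card : ℕ) : ℝ) ≤ C₀ * X := by
    refine hst'.trans (mul_le_mul_of_nonneg_left ?_ hC₀)
    rw [hX]
    have h6 : (Λ.card : ℝ) ^ (2 / 3 : ℝ) ≤ (P.card : ℝ) ^ (2 / 3 : ℝ) :=
      Real.rpow_le_rpow (Nat.cast_nonneg _) hΛP (by norm_num)
    have h7 : (A.card : ℝ) ^ (2 / 3 : ℝ) * (Λ.card : ℝ) ^ (2 / 3 : ℝ) ≤
        (A.card : ℝ) ^ (2 / 3 : ℝ) * (P.card : ℝ) ^ (2 / 3 : ℝ) :=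
      mul_le_mul_of_nonneg_left h6 (by positivity)
    linarith
  have htot : ∑ p ∈ P, (pl A (w p) (f p)).card =
      ∑ p ∈ P1, (pl A (w p) (f p)).card + ∑ p ∈ P2, (pl A (w p) (f p)).card :=
    (sum_filter_add_sum_filter_not P _ _).symm
  rw [div_mul_eq_mul_div, le_div_iff₀ hc, htot]
  push_cast at hsum1 hsum2 hst2 ⊢
  have h8 : (m : ℝ) * P.card ≤ m * X := mul_le_mul_of_nonneg_left hXP (Nat.cast_nonneg m)
  have h9 : (s : ℝ) * ∑ b ∈ Λ, (b.card : ℝ) ≤ s * (C₀ * X) :=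
    mul_le_mul_of_nonneg_left hst2 (Nat.cast_nonneg s)
  have hmm : (max (t : ℝ) 2) = (m : ℝ) := by
    rw [hm]
    push_cast
    rfl
  first
    | rw [hmm]
      nlinarith
    | nlinarith

end Pool.Agent.H39.ND
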