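import Pool.Agent.H39.ND.Norm

/-!
# Module FinN (90 lines): normal vectors which may vanish

PROOF. `C` of `mainW s t m`; the constant is `C + s + t`. If `A = ∅` the left side is 0. Let `A ≠ ∅`, then
`|A| ≤ |A + T|`, `|T| ≤ |A + T|`, so `|A| ≤ |A + T|² / |T|`. `P₁ = P.filter (w p ≠ 0)`: `mainW` for `P₁` (the
hypotheses pass to subsets; in `P₁` the filter `w p' ≠ 0 ∧ Par ..` is `Par ..`; monotonicity in `|P₁| ≤ |P|`).
`P₀ = P.filter (w p = 0)`: `ip q 0 = 0`, so `pl A 0 (f p)` is `A` if `f p = 0` and `∅` otherwise. If `t ≤ |A|` at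
most `s` points have `w p = 0`, `f p = 0` (hypothesis with `B = A`; they satisfy `∀ q ∈ A, ip q (w p) = f p`):
contribution `≤ s |A| ≤ s |A + T|² / |T|`. If `|A| < t`: contribution `≤ t |P|`.
-/

namespace Pool.Agent.H39.ND

open Finset
open scoped Classical Pointwise

private theorem FinN_zero {ι : Type} {P : Finset ι} {w : ι → V3} {f : ι → ℝ} {A : Finset V3}
    {s t : ℕ} (hw : ∀ p ∈ P, w p = 0)
    (hB : ∀ B ⊆ A, t ≤ B.card → (P.filter fun p => ∀ q ∈ B, ip q (w p) = f p).card ≤ s) :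
    ∑ p ∈ P, (pl A (w p) (f p)).card ≤ s * A.card + t * P.card := by
  by_cases ht : t ≤ A.card
  · have h1 := hB A subset_rfl ht
    have h2 : ∑ p ∈ P, (pl A (w p) (f p)).card ≤
        ∑ p ∈ P, if (∀ q ∈ A, ip q (w p) = f p) then A.card else 0 := by
      refine Finset.sum_le_sum fun p hp => ?_
      by_cases h : ∀ q ∈ A, ip q (w p) = f p
      · rw [if_pos h]
        exact Finset.card_le_card (Finset.filter_subset _ _)
      · rw [if_neg h]
        push Not at h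
        obtain ⟨q, -, hq⟩ := h
        have h3 : pl A (w p) (f p) = ∅ := by
          refine Finset.filter_eq_empty_iff.2 fun x _ hx => hq ?_
          rw [← hx, hw p hp]
          simp [ip]
        rw [h3, Finset.card_empty]
    rw [← Finset.sum_filter, Finset.sum_const, smul_eq_mul] at h2
    calc ∑ p ∈ P, (pl A (w p) (f p)).card
        ≤ (P.filter fun p => ∀ q ∈ A, ip q (w p) = f p).card * A.card := h2
      _ ≤ s * A.card := Nat.mul_le_mul_right _ h1
      _ ≤ s * A.card + t * P.card := Nat.le_add_right _ _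
  · push Not at ht
    calc ∑ p ∈ P, (pl A (w p) (f p)).card ≤ ∑ _p ∈ P, t :=
          Finset.sum_le_sum fun p _ => (Finset.card_le_card (Finset.filter_subset _ _)).trans ht.le
      _ = t * P.card := by rw [Finset.sum_const, smul_eq_mul, Nat.mul_comm]
      _ ≤ s * A.card + t * P.card := Nat.le_add_left _ _

theorem finN (s t m : ℕ) : ∃ C : ℝ, 0 ≤ C ∧ ∀ (ι : Type) (P : Finset ι) (w : ι → V3)
    (f : ι → ℝ) (A T : Finset V3), T.Nonempty →
    (∀ p ∈ P, w p ≠ 0 → (P.filter fun p' => w p' ≠ 0 ∧ Par (w p') (w p)).card ≤ m) →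
    (∀ B ⊆ A, t ≤ B.card → (P.filter fun p => ∀ q ∈ B, ip q (w p) = f p).card ≤ s) →
    ((∑ p ∈ P, (pl A (w p) (f p)).card : ℕ) : ℝ) ≤
      C * (((A + T).card : ℝ) * (P.card : ℝ) ^ (2 / 3 : ℝ) / (T.card : ℝ) ^ (1 / 3 : ℝ) + P.card +
        ((A + T).card : ℝ) ^ 2 / T.card) := by
  obtain ⟨C, hC, hmain⟩ := mainW s t m
  have hs0 : (0 : ℝ) ≤ s := Nat.cast_nonneg s
  have ht0 : (0 : ℝ) ≤ t := Nat.cast_nonneg t
  refine ⟨C + s + t, by positivity, fun ι P w f A T hT hm hB => ?_⟩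
  have hTc : 0 < (T.card : ℝ) := by exact_mod_cast hT.card_pos
  have h1 := hmain ι (P.filter fun p => w p ≠ 0) w f A T hT
    (fun p hp => (Finset.mem_filter.1 hp).2)
    (fun p hp => by
      obtain ⟨hp1, hp2⟩ := Finset.mem_filter.1 hp
      refine le_trans (Finset.card_le_card ?_) (hm p hp1 hp2)
      intro x hx
      rw [Finset.mem_filter, Finset.mem_filter] at hx
      rw [Finset.mem_filter]
      exact ⟨hx.1.1, hx.1.2, hx.2⟩)
    (fun B hBA ht => by
      refine le_trans (Finset.card_le_card ?_) (hB B hBA ht)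
      exact Finset.filter_subset_filter _ (Finset.filter_subset _ _))
  have h2 := FinN_zero (P := P.filter fun p => ¬ w p ≠ 0) (w := w) (f := f) (A := A) (s := s) (t := t)
    (fun p hp => not_not.1 (Finset.mem_filter.1 hp).2)
    (fun B hBA ht => by
      refine le_trans (Finset.card_le_card ?_) (hB B hBA ht)
      exact Finset.filter_subset_filter _ (Finset.filter_subset _ _))
  have hsplit := Finset.sum_filter_add_sum_filter_not P (fun p => w p ≠ 0)
    (fun p => (pl A (w p) (f p)).card)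
  rw [← hsplit]
  push_cast
  have hP1 : ((P.filter fun p => w p ≠ 0).card : ℝ) ≤ (P.card : ℝ) := by
    exact_mod_cast Finset.card_le_card (Finset.filter_subset _ _)
  have hP0 : ((P.filter fun p => ¬ w p ≠ 0).card : ℝ) ≤ (P.card : ℝ) := by
    exact_mod_cast Finset.card_le_card (Finset.filter_subset _ _)
  have hX1 : ((P.filter fun p => w p ≠ 0).card : ℝ) ^ (2 / 3 : ℝ) ≤ (P.card : ℝ) ^ (2 / 3 : ℝ) :=
    Real.rpow_le_rpow (Nat.cast_nonneg _) hP1 (by norm_num)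
  have hS0 : (0 : ℝ) ≤ ((A + T).card : ℝ) := Nat.cast_nonneg _
  have hT3 : 0 < (T.card : ℝ) ^ (1 / 3 : ℝ) := Real.rpow_pos_of_pos hTc _
  have hX : ((A + T).card : ℝ) * ((P.filter fun p => w p ≠ 0).card : ℝ) ^ (2 / 3 : ℝ) /
      (T.card : ℝ) ^ (1 / 3 : ℝ) ≤ ((A + T).card : ℝ) * (P.card : ℝ) ^ (2 / 3 : ℝ) /
      (T.card : ℝ) ^ (1 / 3 : ℝ) :=
    div_le_div_of_nonneg_right (mul_le_mul_of_nonneg_left hX1 hS0) hT3.le
  have hA : (A.card : ℝ) ≤ ((A + T).card : ℝ) ^ 2 / T.card := by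
    rw [le_div_iff₀ hTc]
    rcases A.eq_empty_or_nonempty with h | h
    · rw [h, Finset.card_empty]
      simp
    · have e1 : (A.card : ℝ) ≤ ((A + T).card : ℝ) := by
        exact_mod_cast Finset.card_le_card_add_right hT
      have e2 : (T.card : ℝ) ≤ ((A + T).card : ℝ) := by
        exact_mod_cast Finset.card_le_card_add_left h
      rw [sq]
      exact mul_le_mul e1 e2 hTc.le hS0
  have h3 : ((∑ p ∈ P.filter fun p => ¬ w p ≠ 0, (pl A (w p) (f p)).card : ℕ) : ℝ) ≤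
      s * (A.card : ℝ) + t * ((P.filter fun p => ¬ w p ≠ 0).card : ℝ) := by
    exact_mod_cast h2
  push_cast at h1 h3
  have n1 : 0 ≤ ((A + T).card : ℝ) * (P.card : ℝ) ^ (2 / 3 : ℝ) / (T.card : ℝ) ^ (1 / 3 : ℝ) := by
    positivity
  have n2 : (0 : ℝ) ≤ (P.card : ℝ) := Nat.cast_nonneg _
  have n3 : 0 ≤ ((A + T).card : ℝ) ^ 2 / (T.card : ℝ) := by positivity
  set X1 : ℝ := ((A + T).card : ℝ) * (P.card : ℝ) ^ (2 / 3 : ℝ) / (T.card : ℝ) ^ (1 / 3 : ℝ) with hX1d
  set X3 : ℝ := ((A + T).card : ℝ) ^ 2 / (T.card : ℝ) with hX3d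
  have k1 := mul_le_mul_of_nonneg_left (add_le_add (add_le_add hX hP1) (le_refl X3)) hC
  have k2 : (s : ℝ) * (A.card : ℝ) ≤ s * X3 := mul_le_mul_of_nonneg_left hA hs0
  have k3 : (t : ℝ) * ((P.filter fun p => ¬ w p ≠ 0).card : ℝ) ≤ t * (P.card : ℝ) :=
    mul_le_mul_of_nonneg_left hP0 ht0
  have m1 : 0 ≤ (s : ℝ) * X1 := mul_nonneg hs0 n1
  have m2 : 0 ≤ (s : ℝ) * (P.card : ℝ) := mul_nonneg hs0 n2
  have m3 : 0 ≤ (t : ℝ) * X1 := mul_nonneg ht0 n1
  have m4 : 0 ≤ (t : ℝ) * X3 := mul_nonneg ht0 n3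
  have e : (C + s + t) * (X1 + (P.card : ℝ) + X3) = C * (X1 + (P.card : ℝ) + X3) +
      (s * X1 + s * (P.card : ℝ) + s * X3) + (t * X1 + t * (P.card : ℝ) + t * X3) := by ring
  rw [e]
  linarith

end Pool.Agent.H39.ND
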