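import Pool.Agent.H39.ND.Beck

/-!
# Module Good (170 lines): many points of `X + Y` see many points of `X + Y`

PROOF. `c, r₀` from `beck`; the same `c`, `r₀`. Let `r = |X| ≥ r₀ ≥ 3`, `a = |Y| ≥ 1`. It is enough to find
`Q₀ ⊆ X + Y` with `|Q₀| ≥ c min(r,a)` (so `|Q₀| ≥ ⌈c min⌉₊`) all of whose points see `c max(r,a)` points of
`X + Y`: take `Q ⊆ Q₀` with `|Q| = ⌈c min(r,a)⌉₊` (`Finset.exists_subset_card_eq`; `⌈c m⌉₊ ≤ m` since `c ≤ 1/2`).
Case `a ≤ r`: by `beck` for `X` and the hypothesis there is `Q₁ ⊆ X`, `|Q₁| ≥ c r`, all whose points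
see `c r` points of `X`. Fix `g ∈ Y`; `Q₀ = Q₁ + g`; `Sees` is invariant under translation (`cl_add`)
and `X + g ⊆ X + Y`.
Case `r < a`: `beck` for `Y` (`r₀ ≤ a`). If the second alternative holds, translate `Q₁ ⊆ Y` by `e ∈ X`. If
the first holds: `L ⊆ Y`, `Col L`, `|L| ≥ c a`. `X` is not `Col` (otherwise `L = X` contradicts the
hypothesis, as `c r ≤ r`). If `|L| ≤ 1` then (`c a ≤ 1`): here `Sees q _ 1` is enough: `Q₀ = {e + g}`,
`e ∈ X`, `g ∈ Y`, `E' = {e' + g}`, `e' ≠ e` in `X`. If `L` has two points `g₁ ≠ g₂`: there are `e, e'` in `X` with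
`e' - e` not parallel to `g₂ - g₁` (otherwise all differences of points of `X` are parallel to
`g₂ - g₁ ≠ 0`, and `X` is `Col` by `par_trans`). `Q₀ = L + e`; the point `q = e + g` (`g ∈ L`) sees
`E' = L + e'`: `q ∉ E'` and `Cl q (e' + g') (e' + g'')` with `g' ≠ g''` in `L` is impossible: it would give
`Par (e' - e + g' - g) (e' - e + g'' - g)`, and `g' - g = x v`, `g'' - g = y v`, `v = g₂ - g₁`, `x ≠ y`:
the cross product is `(y - x) (e' - e) × v ≠ 0`. (And `q ∈ E'` means `e' - e = g - g' ∥ v`.)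
-/

namespace Pool.Agent.H39.ND

open Finset
open scoped Classical Pointwise

private lemma Good_par {w v : V3} {s t : ℝ} (hst : s ≠ t) (h : Par (w + s • v) (w + t • v)) :
    Par w v := by
  obtain ⟨h1, h2, h3⟩ := h
  simp only [Prod.fst_add, Prod.snd_add, Prod.smul_fst, Prod.smul_snd, smul_eq_mul] at h1 h2 h3
  have h0 : t - s ≠ 0 := sub_ne_zero.2 hst.symm
  refine ⟨mul_left_cancel₀ h0 ?_, mul_left_cancel₀ h0 ?_, mul_left_cancel₀ h0 ?_⟩
  · linear_combination h1
  · linear_combination h2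
  · linear_combination h3

private lemma Good_tr {q : V3} {E : Finset V3} {k : ℝ} (g : V3) (h : Sees q E k) :
    Sees (q + g) (E.image (· + g)) k := by
  obtain ⟨E', h1, h2, h3, h4⟩ := h
  refine ⟨E'.image (· + g), image_subset_image h1, ?_, ?_, ?_⟩
  · intro hc
    obtain ⟨x, hx, hxg⟩ := mem_image.1 hc
    have hxq : x = q := add_right_cancel hxg
    rw [hxq] at hx
    exact h2 hx
  · rw [card_image_of_injective _ (add_left_injective g)]
    exact h3
  · intro a ha b hb hab hc
    obtain ⟨x, hx, rfl⟩ := mem_image.1 ha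
    obtain ⟨y, hy, rfl⟩ := mem_image.1 hb
    exact h4 x hx y hy (fun h => hab (by rw [h])) (cl_add.1 hc)

private lemma Good_one {X Y : Finset V3} {Q₁ : Finset V3} {k : ℝ} {g : V3} (hQ : Q₁ ⊆ X)
    (hg : g ∈ Y) (h : ∀ q ∈ Q₁, Sees q X k) :
    Q₁.image (· + g) ⊆ X + Y ∧ (Q₁.image (· + g)).card = Q₁.card ∧
      ∀ q ∈ Q₁.image (· + g), Sees q (X + Y) k := by
  refine ⟨?_, card_image_of_injective _ (add_left_injective g), ?_⟩
  · intro x hx
    obtain ⟨y, hy, rfl⟩ := mem_image.1 hx
    exact add_mem_add (hQ hy) hg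
  · intro q hq
    obtain ⟨y, hy, rfl⟩ := mem_image.1 hq
    refine sees_mono (Good_tr g (h y hy)) ?_ (le_refl k)
    intro x hx
    obtain ⟨z, hz, rfl⟩ := mem_image.1 hx
    exact add_mem_add hz hg

private lemma Good_line {L : Finset V3} (hL : Col L) {g₁ g₂ g : V3} (h1 : g₁ ∈ L) (h2 : g₂ ∈ L)
    (hg : g ∈ L) (hne : g₁ ≠ g₂) : ∃ x : ℝ, g = g₁ + x • (g₂ - g₁) := by
  have h := hL g₁ h1 g₂ h2 g hg
  obtain ⟨x, hx⟩ := par_smul (sub_ne_zero.2 hne.symm) (par_comm h)
  exact ⟨x, by rw [← hx, add_sub_cancel]⟩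

private lemma Good_core {c : ℝ} {r₀ : ℕ} (hc0 : 0 < c) (hc1 : c ≤ 1 / 2) (hr0 : 3 ≤ r₀)
    (hb : ∀ E : Finset V3, r₀ ≤ E.card →
      (∃ L ⊆ E, Col L ∧ c * E.card ≤ (L.card : ℝ)) ∨
      ∃ Q ⊆ E, c * E.card ≤ (Q.card : ℝ) ∧ ∀ q ∈ Q, Sees q E (c * E.card))
    (X Y : Finset V3) (hX : r₀ ≤ X.card) (hY : Y.Nonempty)
    (hL : ¬ ∃ L ⊆ X, Col L ∧ c * X.card ≤ (L.card : ℝ)) :
    ∃ Q ⊆ X + Y, c * (min X.card Y.card : ℕ) ≤ (Q.card : ℝ) ∧
      ∀ q ∈ Q, Sees q (X + Y) (c * (max X.card Y.card : ℕ)) := by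
  rcases le_or_gt Y.card X.card with hle | hlt
  · rw [min_eq_right hle, max_eq_left hle]
    rcases hb X hX with h | ⟨Q₁, hQ₁, hc, hs⟩
    · exact absurd h hL
    obtain ⟨g, hg⟩ := hY
    obtain ⟨h1, h2, h3⟩ := Good_one hQ₁ hg hs
    refine ⟨_, h1, ?_, h3⟩
    rw [h2]
    refine le_trans ?_ hc
    have : (Y.card : ℝ) ≤ X.card := by exact_mod_cast hle
    exact mul_le_mul_of_nonneg_left this hc0.le
  · rw [min_eq_left hlt.le, max_eq_right hlt.le]
    have hra : c * (X.card : ℝ) ≤ c * Y.card := by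
      have : (X.card : ℝ) ≤ Y.card := by exact_mod_cast hlt.le
      exact mul_le_mul_of_nonneg_left this hc0.le
    have hXne : X.Nonempty := by
      rw [← card_pos]
      omega
    rcases hb Y (hX.trans hlt.le) with ⟨L, hLY, hcol, hLc⟩ | ⟨Q₁, hQ₁, hc, hs⟩
    · have hXc : ¬ Col X := by
        intro h
        refine hL ⟨X, Subset.refl X, h, ?_⟩
        have : (0 : ℝ) ≤ X.card := Nat.cast_nonneg _
        nlinarith
      rcases le_or_gt L.card 1 with hL1 | hL1
      · -- one point
        obtain ⟨g, hg⟩ := hY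
        obtain ⟨e, he, e', he', hne⟩ := one_lt_card.1 (show 1 < X.card by omega)
        have hca : c * (Y.card : ℝ) ≤ 1 := by
          refine hLc.trans ?_
          exact_mod_cast hL1
        refine ⟨{e + g}, ?_, ?_, ?_⟩
        · rw [singleton_subset_iff]
          exact add_mem_add he hg
        · rw [card_singleton, Nat.cast_one]
          exact hra.trans hca
        · intro q hq
          rw [mem_singleton] at hq
          rw [hq]
          refine ⟨{e' + g}, ?_, ?_, ?_, ?_⟩
          · rw [singleton_subset_iff]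
            exact add_mem_add he' hg
          · rw [mem_singleton]
            exact fun h => hne (add_right_cancel h)
          · rw [card_singleton, Nat.cast_one]
            exact hca
          · intro a ha b hb' hab
            rw [mem_singleton] at ha hb'
            exact absurd (ha.trans hb'.symm) hab
      · obtain ⟨g₁, hg₁, g₂, hg₂, hne⟩ := one_lt_card.1 hL1
        have hv : g₂ - g₁ ≠ 0 := sub_ne_zero.2 hne.symm
        obtain ⟨e, he, e', he', hpar⟩ : ∃ e ∈ X, ∃ e' ∈ X, ¬ Par (e' - e) (g₂ - g₁) := by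
          by_contra hcon
          push Not at hcon
          apply hXc
          intro a ha b hb' d hd
          exact par_trans hv (hcon a ha b hb') (par_comm (hcon a ha d hd))
        refine ⟨L.image (e + ·), ?_, ?_, ?_⟩
        · intro x hx
          obtain ⟨y, hy, rfl⟩ := mem_image.1 hx
          exact add_mem_add he (hLY hy)
        · rw [card_image_of_injective _ (add_right_injective e)]
          exact hra.trans hLc
        · intro q hq
          obtain ⟨g, hg, rfl⟩ := mem_image.1 hq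
          obtain ⟨x, hx⟩ := Good_line hcol hg₁ hg₂ hg hne
          refine ⟨L.image (e' + ·), ?_, ?_, ?_, ?_⟩
          · intro z hz
            obtain ⟨y, hy, rfl⟩ := mem_image.1 hz
            exact add_mem_add he' (hLY hy)
          · intro hc
            obtain ⟨g', hg', h'⟩ := mem_image.1 hc
            obtain ⟨y, hy⟩ := Good_line hcol hg₁ hg₂ hg' hne
            apply hpar
            have e1 : e' - e = (x - y) • (g₂ - g₁) := by
              have e2 : e' + g' = e + g := h'
              have e3 : e' - e = g - g' := by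
                rw [sub_eq_sub_iff_add_eq_add, e2, add_comm]
              rw [e3, hx, hy, sub_smul]
              abel
            rw [e1]
            exact smul_par _ _
          · rw [card_image_of_injective _ (add_right_injective e')]
            exact hLc
          · intro a ha b hb' hab hc
            obtain ⟨g', hg', rfl⟩ := mem_image.1 ha
            obtain ⟨g'', hg'', rfl⟩ := mem_image.1 hb'
            obtain ⟨y, hy⟩ := Good_line hcol hg₁ hg₂ hg' hne
            obtain ⟨z, hz⟩ := Good_line hcol hg₁ hg₂ hg'' hne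
            have hyz : y - x ≠ z - x := by
              intro h
              have h5 : y = z := by linarith
              apply hab
              rw [hy, hz, h5]
            apply hpar
            refine Good_par hyz ?_
            have e1 : e' + g' - (e + g) = e' - e + (y - x) • (g₂ - g₁) := by
              rw [hy, hx, sub_smul]
              abel
            have e2 : e' + g'' - (e + g) = e' - e + (z - x) • (g₂ - g₁) := by
              rw [hz, hx, sub_smul]
              abel
            have h6 : Par (e' + g' - (e + g)) (e' + g'' - (e + g)) := hc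
            rwa [e1, e2] at h6
    · obtain ⟨e, he⟩ := hXne
      obtain ⟨h1, h2, h3⟩ := Good_one hQ₁ he hs
      rw [add_comm Y X] at h1 h3
      refine ⟨_, h1, ?_, h3⟩
      rw [h2]
      exact hra.trans hc

theorem good : ∃ (c : ℝ) (r₀ : ℕ), 0 < c ∧ c ≤ 1 ∧ 1 ≤ r₀ ∧ ∀ X Y : Finset V3, r₀ ≤ X.card →
    Y.Nonempty → (¬ ∃ L ⊆ X, Col L ∧ c * X.card ≤ (L.card : ℝ)) →
    ∃ Q ⊆ X + Y, Q.card ≤ min X.card Y.card ∧
      c * (min X.card Y.card : ℕ) ≤ (Q.card : ℝ) ∧
      ∀ q ∈ Q, Sees q (X + Y) (c * (max X.card Y.card : ℕ)) := by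
  obtain ⟨c, r₀, hc0, hc1, hr0, hb⟩ := beck
  refine ⟨c, r₀, hc0, by linarith, by omega, ?_⟩
  intro X Y hX hY hL
  obtain ⟨Q₀, h1, h2, h3⟩ := Good_core hc0 hc1 hr0 hb X Y hX hY hL
  obtain ⟨Q, hQ, hQc⟩ := exists_subset_card_eq (Nat.ceil_le.2 h2)
  refine ⟨Q, hQ.trans h1, ?_, ?_, fun q hq => h3 q (hQ hq)⟩
  · rw [hQc]
    refine Nat.ceil_le.2 ?_
    have : (0 : ℝ) ≤ (min X.card Y.card : ℕ) := Nat.cast_nonneg _
    nlinarith
  · rw [hQc]
    exact Nat.le_ceil _

end Pool.Agent.H39.ND
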