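import Pool.Agent.H39.ND.NonP
import Pool.Agent.H39.ND.Deg
import Pool.Agent.H39.ND.CoreS

/-!
# Module MainI (170 lines): the theorem for planes with normal `(x, y, 1)`

PROOF. If `A = ∅` all `A_p = pl A (lift (pt p)) (f p)` are empty. Let `A ≠ ∅`; `S = A + T`, `|S| ≥ |A|, |T|`
(`Finset.card_le_card_add_left` or similar, translates). `c₀, c, r₀` from `nonP`, `C₁` from `coreS`,
`C₂` from `deg s t c₀`. Split `P` in three parts: `P₀`: `|A_p| < r₀`, contributes `≤ r₀ |P|`; `P₁`: not in `P₀`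
and there is a collinear `L ⊆ A_p` with `c₀ |A_p| ≤ |L|`: `deg` (its hypothesis passes to the subset `P₁`);
`P₂`: the rest: `nonP` gives `Qs p`, `k p` for `p ∈ P₂`; `coreS` for `P₂`, with `∑ |Qs p| ≤ |P| |T|`:
`c |T| ∑_{P₂} |A_p| ≤ ∑ ∑ k ≤ C₁ m (|S| (|P| |T|)^(2/3) + |P| |T| + |S|²)`, so
`∑_{P₂} |A_p| ≤ (C₁ m / c) (|S| |P|^(2/3) / |T|^(1/3) + |P| + |S|² / |T|)`.
For `P₁`: `|A|^(2/3) |P|^(2/3) ≤ |S| |P|^(2/3) / |T|^(1/3)` because `|A|^(2/3) |T|^(1/3) ≤ |S|^(2/3) |S|^(1/3) = |S|`, and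
`|A| ≤ |S|² / |T|` because `|A| |T| ≤ |S|²`.
-/

namespace Pool.Agent.H39.ND

open Finset
open scoped Classical Pointwise

theorem mainI (s t m : ℕ) : ∃ C : ℝ, 0 ≤ C ∧ ∀ (ι : Type) (P : Finset ι) (pt : ι → ℝ × ℝ)
    (f : ι → ℝ) (A T : Finset V3), T.Nonempty →
    (∀ p ∈ P, (P.filter fun p' => pt p' = pt p).card ≤ m) →
    (∀ B ⊆ A, t ≤ B.card → (P.filter fun p => ∀ q ∈ B, ip q (lift (pt p)) = f p).card ≤ s) →
    ((∑ p ∈ P, (pl A (lift (pt p)) (f p)).card : ℕ) : ℝ) ≤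
      C * (((A + T).card : ℝ) * (P.card : ℝ) ^ (2 / 3 : ℝ) / (T.card : ℝ) ^ (1 / 3 : ℝ) + P.card +
        ((A + T).card : ℝ) ^ 2 / T.card) := by
  obtain ⟨c₀, c, r₀, hc₀, hc₀1, hc, hr₀, hnon⟩ := nonP
  obtain ⟨C₁, hC₁, hcore⟩ := coreS
  obtain ⟨C₂, hC₂, hdeg⟩ := deg s t c₀ hc₀
  refine ⟨r₀ + C₂ + C₁ * m / c, by positivity, ?_⟩
  intro ι P pt f A T hT hmul hdim
  have hT0 : (0 : ℝ) < T.card := by
    have := hT.card_pos
    exact_mod_cast this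
  have hW0 : 0 ≤ ((A + T).card : ℝ) * (P.card : ℝ) ^ (2 / 3 : ℝ) / (T.card : ℝ) ^ (1 / 3 : ℝ) := by
    positivity
  have hW2 : 0 ≤ ((A + T).card : ℝ) ^ 2 / T.card := by positivity
  rcases A.eq_empty_or_nonempty with rfl | hA
  · have h0 : ∀ p ∈ P, (pl ∅ (lift (pt p)) (f p)).card = 0 := fun p _ => by simp [pl]
    rw [Finset.sum_congr rfl h0, Finset.sum_const_zero, Nat.cast_zero]
    positivity
  have hAS : (A.card : ℝ) ≤ (A + T).card := by
    exact_mod_cast Finset.card_le_card_add_right hT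
  have hTS : (T.card : ℝ) ≤ (A + T).card := by
    exact_mod_cast Finset.card_le_card_add_left hA
  -- the three parts
  set W : ℝ := ((A + T).card : ℝ) * (P.card : ℝ) ^ (2 / 3 : ℝ) / (T.card : ℝ) ^ (1 / 3 : ℝ) +
    P.card + ((A + T).card : ℝ) ^ 2 / T.card with hW
  set Nf : ι → ℕ := fun p => (pl A (lift (pt p)) (f p)).card with hNf
  set P0 := P.filter fun p => Nf p < r₀ with hP0
  set P' := P.filter fun p => ¬ Nf p < r₀ with hP'
  set P1 := P'.filter fun p => ∃ L ⊆ pl A (lift (pt p)) (f p), Col L ∧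
    c₀ * (pl A (lift (pt p)) (f p)).card ≤ (L.card : ℝ) with hP1
  set P2 := P'.filter fun p => ¬ ∃ L ⊆ pl A (lift (pt p)) (f p), Col L ∧
    c₀ * (pl A (lift (pt p)) (f p)).card ≤ (L.card : ℝ) with hP2
  have hsplit : ∑ p ∈ P, Nf p = ∑ p ∈ P0, Nf p + (∑ p ∈ P1, Nf p + ∑ p ∈ P2, Nf p) := by
    rw [hP0, hP1, hP2, Finset.sum_filter_add_sum_filter_not, hP',
      Finset.sum_filter_add_sum_filter_not]
  have hP1P : P1 ⊆ P := (Finset.filter_subset _ _).trans (Finset.filter_subset _ _)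
  have hP2P : P2 ⊆ P := (Finset.filter_subset _ _).trans (Finset.filter_subset _ _)
  have hPW : (P.card : ℝ) ≤ W := by
    rw [hW]
    linarith
  have hp0 : (0 : ℝ) ≤ P.card := Nat.cast_nonneg _
  -- the part `P0`
  have e0 : ((∑ p ∈ P0, Nf p : ℕ) : ℝ) ≤ r₀ * W := by
    have h1 : ∑ p ∈ P0, Nf p ≤ P.card * r₀ := by
      calc ∑ p ∈ P0, Nf p ≤ ∑ p ∈ P0, r₀ :=
            Finset.sum_le_sum fun p hp => (Finset.mem_filter.1 hp).2.le
        _ = P0.card * r₀ := by rw [Finset.sum_const, smul_eq_mul]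
        _ ≤ P.card * r₀ := Nat.mul_le_mul_right _ (Finset.card_le_card (Finset.filter_subset _ _))
    have h2 : ((∑ p ∈ P0, Nf p : ℕ) : ℝ) ≤ (P.card : ℝ) * r₀ := by exact_mod_cast h1
    have h3 : (0 : ℝ) ≤ r₀ := Nat.cast_nonneg _
    nlinarith
  -- the part `P1`
  have e1 : ((∑ p ∈ P1, Nf p : ℕ) : ℝ) ≤ C₂ * W := by
    have h1 := hdeg ι P1 (fun p => lift (pt p)) f A
      (fun B hB ht => (Finset.card_le_card (Finset.filter_subset_filter _ hP1P)).trans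
        (hdim B hB ht)) (fun p hp => (Finset.mem_filter.1 hp).2)
    refine h1.trans (mul_le_mul_of_nonneg_left ?_ hC₂)
    have hp1 : (P1.card : ℝ) ≤ P.card := by exact_mod_cast Finset.card_le_card hP1P
    have h2 : (A.card : ℝ) ^ (2 / 3 : ℝ) * (T.card : ℝ) ^ (1 / 3 : ℝ) ≤ (A + T).card := by
      calc (A.card : ℝ) ^ (2 / 3 : ℝ) * (T.card : ℝ) ^ (1 / 3 : ℝ) ≤
          ((A + T).card : ℝ) ^ (2 / 3 : ℝ) * ((A + T).card : ℝ) ^ (1 / 3 : ℝ) :=
            mul_le_mul (Real.rpow_le_rpow (Nat.cast_nonneg _) hAS (by norm_num))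
              (Real.rpow_le_rpow (Nat.cast_nonneg _) hTS (by norm_num)) (by positivity)
              (by positivity)
        _ = (A + T).card := by
            rw [← Real.rpow_add (lt_of_lt_of_le hT0 hTS)]
            norm_num
    have h3 : (A.card : ℝ) ^ (2 / 3 : ℝ) * (P1.card : ℝ) ^ (2 / 3 : ℝ) ≤
        ((A + T).card : ℝ) * (P.card : ℝ) ^ (2 / 3 : ℝ) / (T.card : ℝ) ^ (1 / 3 : ℝ) := by
      rw [le_div_iff₀ (by positivity)]
      calc (A.card : ℝ) ^ (2 / 3 : ℝ) * (P1.card : ℝ) ^ (2 / 3 : ℝ) * (T.card : ℝ) ^ (1 / 3 : ℝ) =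
          (A.card : ℝ) ^ (2 / 3 : ℝ) * (T.card : ℝ) ^ (1 / 3 : ℝ) *
            (P1.card : ℝ) ^ (2 / 3 : ℝ) := by ring
        _ ≤ ((A + T).card : ℝ) * (P.card : ℝ) ^ (2 / 3 : ℝ) :=
            mul_le_mul h2 (Real.rpow_le_rpow (Nat.cast_nonneg _) hp1 (by norm_num))
              (by positivity) (by positivity)
    have h4 : (A.card : ℝ) ≤ ((A + T).card : ℝ) ^ 2 / T.card := by
      rw [le_div_iff₀ hT0, sq]
      exact mul_le_mul hAS hTS hT0.le (by positivity)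
    rw [hW]
    linarith
  -- the part `P2`
  have e2 : ((∑ p ∈ P2, Nf p : ℕ) : ℝ) ≤ C₁ * m / c * W := by
    have h1 : ∀ p, p ∈ P2 → ∃ Qs : Finset V3, Qs ⊆ A + T ∧ ∃ k : V3 → ℝ, Qs.card ≤ T.card ∧
        c * ((pl A (lift (pt p)) (f p)).card * T.card) ≤ ∑ q ∈ Qs, k q ∧
        ∀ q ∈ Qs, Sees q ((A + T).filter fun x => ip (x - q) (lift (pt p)) = 0) (k q) := by
      intro p hp
      have h2 := Finset.mem_filter.1 hp
      have h3 := Finset.mem_filter.1 h2.1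
      exact hnon A T (lift (pt p)) (f p) (not_lt.1 h3.2) h2.2
    choose! Qs hQs k hk1 hk2 hk3 using h1
    have h2 := hcore ι P2 pt m
      (fun p hp => (Finset.card_le_card (Finset.filter_subset_filter _ hP2P)).trans
        (hmul p (hP2P hp))) (A + T) Qs k hQs hk3
    have hM : ((∑ p ∈ P2, (Qs p).card : ℕ) : ℝ) ≤ (P.card : ℝ) * T.card := by
      have h3 : ∑ p ∈ P2, (Qs p).card ≤ P.card * T.card := by
        calc ∑ p ∈ P2, (Qs p).card ≤ ∑ p ∈ P2, T.card := Finset.sum_le_sum fun p hp => hk1 p hp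
          _ = P2.card * T.card := by rw [Finset.sum_const, smul_eq_mul]
          _ ≤ P.card * T.card := Nat.mul_le_mul_right _ (Finset.card_le_card hP2P)
      exact_mod_cast h3
    have h3 : c * T.card * ((∑ p ∈ P2, Nf p : ℕ) : ℝ) ≤ ∑ p ∈ P2, ∑ q ∈ Qs p, k p q := by
      rw [Nat.cast_sum, Finset.mul_sum]
      refine Finset.sum_le_sum fun p hp => ?_
      refine le_trans (le_of_eq ?_) (hk2 p hp)
      rw [hNf]
      ring
    have h4 : C₁ * m * (((A + T).card : ℝ) * ((∑ p ∈ P2, (Qs p).card : ℕ) : ℝ) ^ (2 / 3 : ℝ) +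
        ((∑ p ∈ P2, (Qs p).card : ℕ) : ℝ) + ((A + T).card : ℝ) ^ 2) ≤ C₁ * m * (T.card * W) := by
      refine mul_le_mul_of_nonneg_left ?_ (by positivity)
      have h5 : ((∑ p ∈ P2, (Qs p).card : ℕ) : ℝ) ^ (2 / 3 : ℝ) ≤
          (P.card : ℝ) ^ (2 / 3 : ℝ) * (T.card : ℝ) ^ (2 / 3 : ℝ) := by
        rw [← Real.mul_rpow hp0 hT0.le]
        exact Real.rpow_le_rpow (Nat.cast_nonneg _) hM (by norm_num)
      have h6 : (T.card : ℝ) * (((A + T).card : ℝ) * (P.card : ℝ) ^ (2 / 3 : ℝ) /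
          (T.card : ℝ) ^ (1 / 3 : ℝ)) = ((A + T).card : ℝ) *
            ((P.card : ℝ) ^ (2 / 3 : ℝ) * (T.card : ℝ) ^ (2 / 3 : ℝ)) := by
        have h7 : (T.card : ℝ) ^ (2 / 3 : ℝ) * (T.card : ℝ) ^ (1 / 3 : ℝ) = T.card := by
          rw [← Real.rpow_add hT0]
          norm_num
        rw [mul_div_assoc', div_eq_iff (by positivity)]
        calc (T.card : ℝ) * (((A + T).card : ℝ) * (P.card : ℝ) ^ (2 / 3 : ℝ)) =
            ((T.card : ℝ) ^ (2 / 3 : ℝ) * (T.card : ℝ) ^ (1 / 3 : ℝ)) *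
              (((A + T).card : ℝ) * (P.card : ℝ) ^ (2 / 3 : ℝ)) := by rw [h7]
          _ = _ := by ring
      have h8 : (T.card : ℝ) * (((A + T).card : ℝ) ^ 2 / T.card) = ((A + T).card : ℝ) ^ 2 := by
        field_simp
      rw [hW, mul_add, mul_add, h6, h8]
      have h9 : ((A + T).card : ℝ) * ((∑ p ∈ P2, (Qs p).card : ℕ) : ℝ) ^ (2 / 3 : ℝ) ≤
          ((A + T).card : ℝ) * ((P.card : ℝ) ^ (2 / 3 : ℝ) * (T.card : ℝ) ^ (2 / 3 : ℝ)) :=
        mul_le_mul_of_nonneg_left h5 (Nat.cast_nonneg _)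
      linarith
    have h5 : c * T.card * ((∑ p ∈ P2, Nf p : ℕ) : ℝ) ≤ C₁ * m * (T.card * W) :=
      h3.trans (h2.trans h4)
    have h6 : T.card * (c * ((∑ p ∈ P2, Nf p : ℕ) : ℝ)) ≤ T.card * (C₁ * m * W) := by
      calc T.card * (c * ((∑ p ∈ P2, Nf p : ℕ) : ℝ)) = c * T.card * ((∑ p ∈ P2, Nf p : ℕ) : ℝ) := by
            ring
        _ ≤ C₁ * m * (T.card * W) := h5
        _ = T.card * (C₁ * m * W) := by ring
    have h7 := le_of_mul_le_mul_left h6 hT0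
    rw [div_mul_eq_mul_div, le_div_iff₀ hc, mul_comm]
    exact h7
  rw [hsplit]
  push_cast
  push_cast at e0 e1 e2
  have : (r₀ + C₂ + C₁ * m / c) * W = r₀ * W + (C₂ * W + C₁ * m / c * W) := by ring
  rw [this]
  linarith

end Pool.Agent.H39.ND
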