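import Pool.Agent.H39.ND.Good

/-!
# Module NonP (110 lines): one point `p` with a non-degenerate plane

PROOF. `c₀, r₀` from `good`; `c = c₀²`, but the hypothesis is used with `c₀`: so return both constants.
Let `X = pl A w f`, and for real `τ` let `Y τ = pl T w τ`, `Z = T.image (fun u => ip u w)`. For `τ ∈ Z` the set
`Y τ` is not empty; `Q τ ⊆ X + Y τ` from `good`. All points of `X + Y τ` are in `A + T` and in the plane
`ip x w = f + τ` (`ip` is additive). So the `Q τ` are pairwise disjoint. `Qs = Z.biUnion Q`,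
`k q = c₀ * max |X| |Y (ip q w - f)|`. `|Qs| = ∑ |Q τ| ≤ ∑ |Y τ| = |T|` (`Finset.card_eq_sum_card_image` or
fiberwise). `∑ q ∈ Qs, k q = ∑_τ |Q τ| c₀ max |X| |Y τ| ≥ ∑_τ c₀² min max = c₀² ∑_τ |X| |Y τ| = c₀² |X| |T|`.
For `q ∈ Q τ` (`ip q w = f + τ`): `X + Y τ ⊆ (A + T).filter (ip (x - q) w = 0)` and `sees_mono`.
-/

namespace Pool.Agent.H39.ND

open Finset
open scoped Classical Pointwise

private theorem NonP_ip_add (u v w : V3) : ip (u + v) w = ip u w + ip v w := by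
  simp only [ip, Prod.fst_add, Prod.snd_add]
  ring

private theorem NonP_ip_sub (u v w : V3) : ip (u - v) w = ip u w - ip v w := by
  simp only [ip, Prod.fst_sub, Prod.snd_sub]
  ring

theorem nonP : ∃ (c₀ c : ℝ) (r₀ : ℕ), 0 < c₀ ∧ c₀ ≤ 1 ∧ 0 < c ∧ 1 ≤ r₀ ∧
    ∀ (A T : Finset V3) (w : V3) (f : ℝ), r₀ ≤ (pl A w f).card →
    (¬ ∃ L ⊆ pl A w f, Col L ∧ c₀ * (pl A w f).card ≤ (L.card : ℝ)) →
    ∃ Qs ⊆ A + T, ∃ k : V3 → ℝ, Qs.card ≤ T.card ∧
      c * ((pl A w f).card * T.card) ≤ ∑ q ∈ Qs, k q ∧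
      ∀ q ∈ Qs, Sees q ((A + T).filter fun x => ip (x - q) w = 0) (k q) := by
  obtain ⟨c₀, r₀, hc0, hc1, hr0, hg⟩ := good
  refine ⟨c₀, c₀ ^ 2, r₀, hc0, hc1, by positivity, hr0, ?_⟩
  intro A T w f hX hL
  have hex : ∀ τ : ℝ, ∃ Q : Finset V3, τ ∈ T.image (fun u => ip u w) →
      (Q ⊆ pl A w f + pl T w τ ∧ Q.card ≤ min (pl A w f).card (pl T w τ).card ∧
      c₀ * (min (pl A w f).card (pl T w τ).card : ℕ) ≤ (Q.card : ℝ) ∧
      ∀ q ∈ Q, Sees q (pl A w f + pl T w τ) (c₀ * (max (pl A w f).card (pl T w τ).card : ℕ))) := by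
    intro τ
    by_cases hτ : τ ∈ T.image (fun u => ip u w)
    · obtain ⟨u, hu, hu'⟩ := mem_image.1 hτ
      have hne : (pl T w τ).Nonempty := ⟨u, mem_pl.2 ⟨hu, hu'⟩⟩
      obtain ⟨Q, h1, h2, h3, h4⟩ := hg (pl A w f) (pl T w τ) hX hne hL
      exact ⟨Q, fun _ => ⟨h1, h2, h3, h4⟩⟩
    · exact ⟨∅, fun h => absurd h hτ⟩
  choose Q hQ using hex
  have hip : ∀ τ ∈ T.image (fun u => ip u w), ∀ q ∈ Q τ, ip q w = f + τ := by
    intro τ hτ q hq
    obtain ⟨x, hx, y, hy, rfl⟩ := mem_add.1 ((hQ τ hτ).1 hq)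
    rw [NonP_ip_add, (mem_pl.1 hx).2, (mem_pl.1 hy).2]
  have hdisj : ((T.image (fun u => ip u w) : Finset ℝ) : Set ℝ).PairwiseDisjoint Q := by
    intro τ hτ τ' hτ' hne
    refine Finset.disjoint_left.2 fun q hq hq' => hne ?_
    have h1 := hip τ hτ q hq
    have h2 := hip τ' hτ' q hq'
    linarith
  have hTc : T.card = ∑ τ ∈ T.image (fun u => ip u w), (pl T w τ).card := by
    rw [Finset.card_eq_sum_card_image (fun u => ip u w) T]
    rfl
  refine ⟨(T.image (fun u => ip u w)).biUnion Q, ?_,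
    fun q => c₀ * (max (pl A w f).card (pl T w (ip q w - f)).card : ℕ), ?_, ?_, ?_⟩
  · intro q hq
    obtain ⟨τ, hτ, hq⟩ := mem_biUnion.1 hq
    obtain ⟨x, hx, y, hy, rfl⟩ := mem_add.1 ((hQ τ hτ).1 hq)
    exact add_mem_add (mem_pl.1 hx).1 (mem_pl.1 hy).1
  · refine card_biUnion_le.trans ?_
    rw [hTc]
    exact Finset.sum_le_sum fun τ hτ => (hQ τ hτ).2.1.trans (min_le_right _ _)
  · rw [Finset.sum_biUnion hdisj, hTc]
    push_cast
    rw [Finset.mul_sum, Finset.mul_sum]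
    refine Finset.sum_le_sum fun τ hτ => ?_
    have h1 : ∑ q ∈ Q τ, c₀ * max ((pl A w f).card : ℝ) ((pl T w (ip q w - f)).card : ℝ) =
        ∑ q ∈ Q τ, c₀ * max ((pl A w f).card : ℝ) ((pl T w τ).card : ℝ) := by
      refine Finset.sum_congr rfl fun q hq => ?_
      have h2 : ip q w - f = τ := by
        rw [hip τ hτ q hq]; ring
      rw [h2]
    rw [h1, Finset.sum_const, nsmul_eq_mul]
    have h3 := (hQ τ hτ).2.2.1
    push_cast at h3
    have h4 : min ((pl A w f).card : ℝ) ((pl T w τ).card : ℝ) *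
        max ((pl A w f).card : ℝ) ((pl T w τ).card : ℝ) =
        ((pl A w f).card : ℝ) * ((pl T w τ).card : ℝ) := min_mul_max _ _
    have h5 : 0 ≤ max ((pl A w f).card : ℝ) ((pl T w τ).card : ℝ) :=
      le_max_of_le_left (Nat.cast_nonneg _)
    calc c₀ ^ 2 * (((pl A w f).card : ℝ) * ((pl T w τ).card : ℝ))
        = (c₀ * min ((pl A w f).card : ℝ) ((pl T w τ).card : ℝ)) *
          (c₀ * max ((pl A w f).card : ℝ) ((pl T w τ).card : ℝ)) := by rw [← h4]; ring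
      _ ≤ ((Q τ).card : ℝ) * (c₀ * max ((pl A w f).card : ℝ) ((pl T w τ).card : ℝ)) :=
        mul_le_mul_of_nonneg_right h3 (mul_nonneg hc0.le h5)
  · intro q hq
    obtain ⟨τ, hτ, hq⟩ := mem_biUnion.1 hq
    have h1 := hip τ hτ q hq
    have h2 : ip q w - f = τ := by rw [h1]; ring
    simp only [h2]
    refine sees_mono ((hQ τ hτ).2.2.2 q hq) ?_ le_rfl
    intro z hz
    obtain ⟨x, hx, y, hy, rfl⟩ := mem_add.1 hz
    refine mem_filter.2 ⟨add_mem_add (mem_pl.1 hx).1 (mem_pl.1 hy).1, ?_⟩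
    rw [NonP_ip_sub, NonP_ip_add, (mem_pl.1 hx).2, (mem_pl.1 hy).2, h1]
    ring

end Pool.Agent.H39.ND
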