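import Pool.Agent.H39.ND.MainI

/-!
# Module Norm (130 lines): arbitrary normal vectors

PROOF. `C` of `mainI`. There is a real `z` with `λ_p = w.1 + z w.2.1 + z² w.2.2 ≠ 0` for all `p ∈ P`, `w = w p`
(nonzero polynomials of degree at most 2 in `z` have finitely many zeros; finitely many `p`). Let
`ψ q = (q.2.1 - z q.1, q.2.2 - z² q.1, q.1)`, a linear injective map `V3 → V3`, and
`pt p = (w.2.1 / λ_p, w.2.2 / λ_p)`, `f' p = f p / λ_p`. Then `ip q w = λ_p ip (ψ q) (lift (pt p))`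
(`w.1 = λ - z w.2.1 - z² w.2.2`; field_simp, ring), so `ip q w = f p ↔ ip (ψ q) (lift (pt p)) = f' p`.
Apply `mainI` with `A.image ψ`, `T.image ψ`: `|A.image ψ + T.image ψ| = |(A + T).image ψ| = |A + T|`
(`Finset.image_add` for an additive map or directly), `pl (A.image ψ) .. = (pl A ..).image ψ`. Multiplicity:
`pt p' = pt p` gives `w p' = (λ_p' / λ_p) w p` (the first coordinate as well, by the formula for `w.1`), so
`Par (w p') (w p)` (`smul_par`). The hypothesis on `B ⊆ A.image ψ`: `B = B'.image ψ` with `B' = B.preimage` or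
`A.filter (ψ q ∈ B)`, same cardinality.
-/

namespace Pool.Agent.H39.ND

open Finset
open scoped Classical Pointwise

/-- the value of the quadratic polynomial -/
private def Norm_lam (z : ℝ) (w : V3) : ℝ := w.1 + z * w.2.1 + z ^ 2 * w.2.2

private theorem Norm_exists_z {ι : Type} (P : Finset ι) (w : ι → V3) (hw : ∀ p ∈ P, w p ≠ 0) :
    ∃ z : ℝ, ∀ p ∈ P, Norm_lam z (w p) ≠ 0 := by
  let g : ι → Polynomial ℝ := fun p =>
    Polynomial.C (w p).1 + Polynomial.X * Polynomial.C (w p).2.1 +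
      Polynomial.X ^ 2 * Polynomial.C (w p).2.2
  have hg : ∀ p ∈ P, g p ≠ 0 := by
    intro p hp h0
    apply hw p hp
    have e0 : (g p).eval 0 = 0 := by rw [h0, Polynomial.eval_zero]
    have e1 : (g p).eval 1 = 0 := by rw [h0, Polynomial.eval_zero]
    have e2 : (g p).eval (-1) = 0 := by rw [h0, Polynomial.eval_zero]
    simp only [g, Polynomial.eval_add, Polynomial.eval_mul, Polynomial.eval_pow,
      Polynomial.eval_X, Polynomial.eval_C] at e0 e1 e2
    have h1 : (w p).1 = 0 := by linarith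
    have h2 : (w p).2.1 = 0 := by linarith
    have h3 : (w p).2.2 = 0 := by linarith
    exact Prod.ext h1 (Prod.ext h2 h3)
  have hQ : (∏ p ∈ P, g p) ≠ 0 := Finset.prod_ne_zero_iff.2 hg
  by_contra hcon
  push Not at hcon
  apply hQ
  apply Polynomial.funext
  intro z
  rw [Polynomial.eval_zero, Polynomial.eval_prod]
  obtain ⟨p, hp, hz⟩ := hcon z
  refine Finset.prod_eq_zero hp ?_
  simp only [g, Polynomial.eval_add, Polynomial.eval_mul, Polynomial.eval_pow,
    Polynomial.eval_X, Polynomial.eval_C]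
  exact hz

/-- the linear change of coordinates -/
private def Norm_psi (z : ℝ) : V3 →+ V3 where
  toFun q := (q.2.1 - z * q.1, q.2.2 - z ^ 2 * q.1, q.1)
  map_zero' := by
    refine Prod.ext ?_ (Prod.ext ?_ ?_) <;> simp
  map_add' x y := by
    refine Prod.ext ?_ (Prod.ext ?_ ?_)
    · change x.2.1 + y.2.1 - z * (x.1 + y.1) = x.2.1 - z * x.1 + (y.2.1 - z * y.1)
      ring
    · change x.2.2 + y.2.2 - z ^ 2 * (x.1 + y.1) = x.2.2 - z ^ 2 * x.1 + (y.2.2 - z ^ 2 * y.1)
      ring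
    · rfl

private theorem Norm_inj (z : ℝ) : Function.Injective (Norm_psi z) := by
  intro x y h
  have h1 : x.2.1 - z * x.1 = y.2.1 - z * y.1 := congrArg (fun v : V3 => v.1) h
  have h2 : x.2.2 - z ^ 2 * x.1 = y.2.2 - z ^ 2 * y.1 := congrArg (fun v : V3 => v.2.1) h
  have h3 : x.1 = y.1 := congrArg (fun v : V3 => v.2.2) h
  rw [h3] at h1 h2
  refine Prod.ext h3 (Prod.ext ?_ ?_)
  · linarith
  · linarith

/-- the point of the plane -/
private noncomputable def Norm_pt (z : ℝ) (w : V3) : ℝ × ℝ :=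
  (w.2.1 / Norm_lam z w, w.2.2 / Norm_lam z w)

private theorem Norm_ip {z : ℝ} {w : V3} (hl : Norm_lam z w ≠ 0) (q : V3) :
    ip (Norm_psi z q) (lift (Norm_pt z w)) = ip q w / Norm_lam z w := by
  change (q.2.1 - z * q.1) * (w.2.1 / Norm_lam z w) + (q.2.2 - z ^ 2 * q.1) *
    (w.2.2 / Norm_lam z w) + q.1 * 1 = (q.1 * w.1 + q.2.1 * w.2.1 + q.2.2 * w.2.2) / Norm_lam z w
  rw [eq_div_iff hl]
  have h1 : w.2.1 / Norm_lam z w * Norm_lam z w = w.2.1 := div_mul_cancel₀ _ hl
  have h2 : w.2.2 / Norm_lam z w * Norm_lam z w = w.2.2 := div_mul_cancel₀ _ hl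
  have h3 : Norm_lam z w = w.1 + z * w.2.1 + z ^ 2 * w.2.2 := rfl
  linear_combination (q.2.1 - z * q.1) * h1 + (q.2.2 - z ^ 2 * q.1) * h2 + q.1 * h3

private theorem Norm_iff {z : ℝ} {w : V3} (hl : Norm_lam z w ≠ 0) (q : V3) (f : ℝ) :
    ip (Norm_psi z q) (lift (Norm_pt z w)) = f / Norm_lam z w ↔ ip q w = f := by
  rw [Norm_ip hl, div_left_inj' hl]

private theorem Norm_par {z : ℝ} {w w' : V3} (hl : Norm_lam z w ≠ 0) (hl' : Norm_lam z w' ≠ 0)
    (h : Norm_pt z w' = Norm_pt z w) : Par w' w := by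
  have h1 : w'.2.1 / Norm_lam z w' = w.2.1 / Norm_lam z w :=
    congrArg (fun v : ℝ × ℝ => v.1) h
  have h2 : w'.2.2 / Norm_lam z w' = w.2.2 / Norm_lam z w :=
    congrArg (fun v : ℝ × ℝ => v.2) h
  rw [div_eq_div_iff hl' hl] at h1 h2
  have h3 : Norm_lam z w = w.1 + z * w.2.1 + z ^ 2 * w.2.2 := rfl
  have h3' : Norm_lam z w' = w'.1 + z * w'.2.1 + z ^ 2 * w'.2.2 := rfl
  have h4 : w'.1 * Norm_lam z w = w.1 * Norm_lam z w' := by
    linear_combination -Norm_lam z w * h3' + Norm_lam z w' * h3 - z * h1 - z ^ 2 * h2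
  refine ⟨?_, ?_, ?_⟩
  · apply mul_right_cancel₀ hl
    linear_combination w.2.1 * h4 - w.1 * h1
  · apply mul_right_cancel₀ hl
    linear_combination w.2.2 * h4 - w.1 * h2
  · apply mul_right_cancel₀ hl
    linear_combination w.2.2 * h1 - w.2.1 * h2

theorem mainW (s t m : ℕ) : ∃ C : ℝ, 0 ≤ C ∧ ∀ (ι : Type) (P : Finset ι) (w : ι → V3)
    (f : ι → ℝ) (A T : Finset V3), T.Nonempty → (∀ p ∈ P, w p ≠ 0) →
    (∀ p ∈ P, (P.filter fun p' => Par (w p') (w p)).card ≤ m) →
    (∀ B ⊆ A, t ≤ B.card → (P.filter fun p => ∀ q ∈ B, ip q (w p) = f p).card ≤ s) →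
    ((∑ p ∈ P, (pl A (w p) (f p)).card : ℕ) : ℝ) ≤
      C * (((A + T).card : ℝ) * (P.card : ℝ) ^ (2 / 3 : ℝ) / (T.card : ℝ) ^ (1 / 3 : ℝ) + P.card +
        ((A + T).card : ℝ) ^ 2 / T.card) := by
  obtain ⟨C, hC, H⟩ := mainI s t m
  refine ⟨C, hC, fun ι P w f A T hT hw hm hB => ?_⟩
  obtain ⟨z, hz⟩ := Norm_exists_z P w hw
  have hinj := Norm_inj z
  have key := H ι P (fun p => Norm_pt z (w p)) (fun p => f p / Norm_lam z (w p))
    (A.image (Norm_psi z)) (T.image (Norm_psi z)) (hT.image _) ?_ ?_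
  · rw [← Finset.image_add, Finset.card_image_of_injective _ hinj,
      Finset.card_image_of_injective _ hinj] at key
    have h1 : ∑ p ∈ P, (pl A (w p) (f p)).card =
        ∑ p ∈ P, (pl (A.image (Norm_psi z)) (lift (Norm_pt z (w p)))
          (f p / Norm_lam z (w p))).card := by
      refine Finset.sum_congr rfl fun p hp => ?_
      unfold pl
      rw [Finset.filter_image, Finset.card_image_of_injective _ hinj]
      congr 1
      refine Finset.filter_congr fun q _ => ?_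
      exact (Norm_iff (hz p hp) q (f p)).symm
    rw [h1]
    exact key
  · intro p hp
    refine le_trans (Finset.card_le_card ?_) (hm p hp)
    intro p' hp'
    rw [Finset.mem_filter] at hp' ⊢
    exact ⟨hp'.1, Norm_par (hz p hp) (hz p' hp'.1) hp'.2⟩
  · intro B hBA hBt
    have h1 : (A.filter fun q => Norm_psi z q ∈ B).image (Norm_psi z) = B := by
      ext b
      rw [Finset.mem_image]
      constructor
      · rintro ⟨q, hq, rfl⟩
        exact (Finset.mem_filter.1 hq).2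
      · intro hb
        obtain ⟨q, hq, hqb⟩ := Finset.mem_image.1 (hBA hb)
        exact ⟨q, Finset.mem_filter.2 ⟨hq, by rw [hqb]; exact hb⟩, hqb⟩
    have h2 : (A.filter fun q => Norm_psi z q ∈ B).card = B.card := by
      rw [← Finset.card_image_of_injective _ hinj, h1]
    refine le_trans (Finset.card_le_card ?_)
      (hB (A.filter fun q => Norm_psi z q ∈ B) (Finset.filter_subset _ _) (by rw [h2]; exact hBt))
    intro p hp
    rw [Finset.mem_filter] at hp ⊢
    refine ⟨hp.1, fun q hq => ?_⟩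
    exact (Norm_iff (hz p hp.1) q (f p)).1 (hp.2 _ (Finset.mem_filter.1 hq).2)

end Pool.Agent.H39.ND
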