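import Pool.Agent.H39.ND.STw

/-!
# Module OneQ (130 lines): the points `p` whose plane through `q` is seen richly from `q`

`reps` PROOF. Among the subsets `R` of `D` with pairwise `¬ Par` take one of maximal cardinality
(`Finset.exists_max_image` on the filtered powerset, which contains `∅`). If `u ∈ D` were not
parallel to any element of `R` then `insert u R` would be larger (`Par u u` always holds,
so `u ∉ R`; use `par_comm`).

`oneQ` PROOF. `C` the constant of `st`. `D = (S.image (fun x => x - q)).filter (fun u => u.1 ≠ 0 ∨ u.2.1 ≠ 0)`,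
`R` from `reps` (elements of `D` are nonzero), `|R| ≤ |D| ≤ |S|`. Let `p ∈ P`, `w = lift (pt p)` and
`E'` from `Sees`. For `x ∈ E'`: `x ≠ q`, `ip (x - q) w = 0`, so `(x - q).1 ≠ 0 ∨ (x - q).2.1 ≠ 0` (otherwise
the third coordinate vanishes too), `x - q ∈ D`; let `v x ∈ R` with `Par (x - q) (v x)`. Then
`ip (v x) w = 0` (`ip_par`, `par_comm`), and `v` is injective on `E'`: if `v x = v y` then
`Par (x - q) (y - q)` by `par_trans` (`v x ≠ 0`), i.e. `Cl q x y`, so `x = y`. Hence
`k p ≤ |E'| ≤ G (pt p)` with `G z = |R.filter (fun u => ip u (lift z) = 0)|`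
(`Finset.card_le_card_of_injOn`). Now `∑ p ∈ P, G (pt p) = ∑ z ∈ P.image pt, |fibre of z| * G z
≤ m * ∑ z ∈ P.image pt, G z` (`Finset.sum_comp` or `Finset.sum_fiberwise_of_maps_to`), apply `st`
to `P.image pt` and `R` and use `|P.image pt| ≤ |P|`, `|R| ≤ |S|` and monotonicity of `x ^ (2/3)`.
(If `R` or `P` is empty nothing special happens: `0 ^ (2/3) = 0`.)
-/

namespace Pool.Agent.H39.ND

open Finset
open scoped Classical

theorem par_self (u : V3) : Par u u := ⟨mul_comm _ _, mul_comm _ _, mul_comm _ _⟩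

/-- the elements of `R` are pairwise not parallel -/
def NPar (R : Finset V3) : Prop := ∀ u ∈ R, ∀ v ∈ R, u ≠ v → ¬ Par u v

theorem reps (D : Finset V3) : ∃ R ⊆ D,
    (∀ u ∈ R, ∀ v ∈ R, u ≠ v → ¬ Par u v) ∧ ∀ u ∈ D, ∃ v ∈ R, Par u v := by
  obtain ⟨R, hR, hmax⟩ := Finset.exists_max_image
    (D.powerset.filter NPar) Finset.card
    ⟨∅, by rw [mem_filter]; exact ⟨by simp, fun u hu => by simp at hu⟩⟩
  rw [mem_filter, mem_powerset] at hR
  refine ⟨R, hR.1, hR.2, ?_⟩
  intro u hu
  by_contra hcon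
  push Not at hcon
  have huR : u ∉ R := fun h => hcon u h (par_self u)
  have hins : insert u R ∈ D.powerset.filter NPar := by
    rw [mem_filter, mem_powerset]
    refine ⟨insert_subset hu hR.1, ?_⟩
    intro a ha b hb hab
    rw [mem_insert] at ha hb
    rcases ha with rfl | ha
    · rcases hb with rfl | hb
      · exact absurd rfl hab
      · exact hcon b hb
    · rcases hb with rfl | hb
      · exact fun h => hcon a ha (par_comm h)
      · exact hR.2 a ha b hb hab
  have h1 := hmax _ hins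
  rw [card_insert_of_notMem huR] at h1
  omega

theorem oneQ : ∃ C : ℝ, 0 ≤ C ∧ ∀ (ι : Type) (P : Finset ι) (pt : ι → ℝ × ℝ) (m : ℕ),
    (∀ p ∈ P, (P.filter fun p' => pt p' = pt p).card ≤ m) → ∀ (S : Finset V3) (q : V3) (k : ι → ℝ),
    (∀ p ∈ P, Sees q (S.filter fun x => ip (x - q) (lift (pt p)) = 0) (k p)) →
    ∑ p ∈ P, k p ≤ C * m *
      ((P.card : ℝ) ^ (2 / 3 : ℝ) * (S.card : ℝ) ^ (2 / 3 : ℝ) + P.card + S.card) := by
  obtain ⟨C, hC0, hC⟩ := st
  refine ⟨C, hC0, ?_⟩
  intro ι P pt m hm S q k hk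
  obtain ⟨R, hRD, hR1, hR2⟩ := reps
    ((S.image fun x => x - q).filter fun u => u.1 ≠ 0 ∨ u.2.1 ≠ 0)
  have hRcard : R.card ≤ S.card :=
    (card_le_card hRD).trans ((card_filter_le _ _).trans card_image_le)
  have hRne : ∀ u ∈ R, u.1 ≠ 0 ∨ u.2.1 ≠ 0 := fun u hu => (mem_filter.1 (hRD hu)).2
  have key : ∀ p ∈ P, k p ≤ ((R.filter fun u => ip u (lift (pt p)) = 0).card : ℝ) := by
    intro p hp
    obtain ⟨E', hE, hq, hkE, hdist⟩ := hk p hp
    refine hkE.trans ?_
    have hne : ∀ x ∈ E', x - q ≠ 0 := by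
      intro x hx h
      exact hq (by rw [sub_eq_zero.1 h] at hx; exact hx)
    have hip : ∀ x ∈ E', ip (x - q) (lift (pt p)) = 0 := fun x hx => (mem_filter.1 (hE hx)).2
    have hex : ∀ x, x ∈ E' → ∃ v ∈ R, Par (x - q) v := by
      intro x hx
      apply hR2
      rw [mem_filter]
      refine ⟨mem_image.2 ⟨x, (mem_filter.1 (hE hx)).1, rfl⟩, ?_⟩
      by_contra hcon
      push Not at hcon
      have h1 := hip x hx
      unfold ip lift at h1
      rw [hcon.1, hcon.2] at h1
      apply hne x hx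
      have h2 : (x - q).2.2 = 0 := by simpa using h1
      exact Prod.ext hcon.1 (Prod.ext hcon.2 h2)
    choose! v hvR hvP using hex
    have h0 : ∀ x ∈ E', v x ≠ 0 := by
      intro x hx h
      have h1 := hRne _ (hvR x hx)
      rw [h] at h1
      simp at h1
    have hcard : E'.card ≤ (R.filter fun u => ip u (lift (pt p)) = 0).card := by
      apply Finset.card_le_card_of_injOn v
      · intro x hx
        have hx' : x ∈ E' := hx
        simp only [coe_filter, Set.mem_ofPred_eq]
        exact ⟨hvR x hx', ip_par (hne x hx') (par_comm (hvP x hx')) (hip x hx')⟩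
      · intro x hx y hy hxy
        have hx' : x ∈ E' := hx
        have hy' : y ∈ E' := hy
        by_contra hcon
        apply hdist x hx' y hy' hcon
        have h2 : Par (v x) (y - q) := by
          rw [hxy]
          exact par_comm (hvP y hy')
        exact par_trans (h0 x hx') (hvP x hx') h2
    exact_mod_cast hcard
  have hsum : ∑ p ∈ P, k p ≤ m * ∑ z ∈ P.image pt,
      ((R.filter fun u => ip u (lift z) = 0).card : ℝ) := by
    refine (Finset.sum_le_sum key).trans ?_
    rw [Finset.sum_comp (fun z : ℝ × ℝ => ((R.filter fun u => ip u (lift z) = 0).card : ℝ)) pt,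
      Finset.mul_sum]
    apply Finset.sum_le_sum
    intro z hz
    obtain ⟨p, hp, rfl⟩ := mem_image.1 hz
    rw [nsmul_eq_mul]
    apply mul_le_mul_of_nonneg_right _ (Nat.cast_nonneg _)
    exact_mod_cast hm p hp
  have hst := hC (P.image pt) R hRne hR1
  push_cast at hst
  have hPc : ((P.image pt).card : ℝ) ≤ P.card := by exact_mod_cast card_image_le
  have hRc : (R.card : ℝ) ≤ S.card := by exact_mod_cast hRcard
  have hpow : ((P.image pt).card : ℝ) ^ (2 / 3 : ℝ) * (R.card : ℝ) ^ (2 / 3 : ℝ) ≤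
      (P.card : ℝ) ^ (2 / 3 : ℝ) * (S.card : ℝ) ^ (2 / 3 : ℝ) := by
    apply mul_le_mul
    · exact Real.rpow_le_rpow (Nat.cast_nonneg _) hPc (by norm_num)
    · exact Real.rpow_le_rpow (Nat.cast_nonneg _) hRc (by norm_num)
    · positivity
    · positivity
  have hm0 : (0 : ℝ) ≤ m := Nat.cast_nonneg _
  calc ∑ p ∈ P, k p ≤ m * ∑ z ∈ P.image pt,
        ((R.filter fun u => ip u (lift z) = 0).card : ℝ) := hsum
    _ ≤ m * (C * (((P.image pt).card : ℝ) ^ (2 / 3 : ℝ) * (R.card : ℝ) ^ (2 / 3 : ℝ)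
        + (P.image pt).card + R.card)) := mul_le_mul_of_nonneg_left hst hm0
    _ ≤ m * (C * ((P.card : ℝ) ^ (2 / 3 : ℝ) * (S.card : ℝ) ^ (2 / 3 : ℝ) + P.card + S.card)) := by
        apply mul_le_mul_of_nonneg_left _ hm0
        apply mul_le_mul_of_nonneg_left _ hC0
        linarith
    _ = C * m * ((P.card : ℝ) ^ (2 / 3 : ℝ) * (S.card : ℝ) ^ (2 / 3 : ℝ) + P.card + S.card) := by
        ring

end Pool.Agent.H39.ND
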