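import Pool.Agent.H39.ND.Bas

/-!
# Module Proj (120 lines): a generic projection to the plane

`pr z v = (v.2.1 - z v.1, v.2.2 - z² v.1)` is the projection along `(1, z, z²)`.

PROOF of `proj`. A polynomial `a + b z + c z²` with `(a, b, c) ≠ 0` has finitely many zeros. For
`n : V3`, `n ≠ 0`, the set `bad n = {z | n.1 + n.2.1 z + n.2.2 z² = 0}` is finite (roots of the
polynomial `C n.1 + C n.2.1 * X + C n.2.2 * X²`). For `a ≠ b` put `u = b - a`. If `pr z a = pr z b` then
`u.2.1 = z u.1` and `u.2.2 = z² u.1`, so `u.1 ≠ 0` (otherwise `u = 0`) and `z = u.2.1 / u.1`: one bad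
value. For a triple with `¬ Cl a b c` the cross product `n` of `u = b - a` and `v = c - a` is nonzero
(`n = (u.2.1 v.2.2 - u.2.2 v.2.1, u.2.2 v.1 - u.1 v.2.2, u.1 v.2.1 - u.2.1 v.1)`) and the determinant of the
projections of `u`, `v` is `(u.2.1 - z u.1)(v.2.2 - z² v.1) - (u.2.2 - z² u.1)(v.2.1 - z v.1) =
n.1 + z n.2.1 + z² n.2.2` (`ring`). So all bad `z` are in a finite union of finite sets
(over `E ×ˢ E` and `E ×ˢ E ×ˢ E`; `Set.Finite.biUnion`); take `z` outside
(`Set.Finite.infinite_compl`, `Set.Infinite.nonempty`).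
-/

namespace Pool.Agent.H39.ND

open Finset
open scoped Classical

/-- the projection along `(1, z, z²)` -/
def pr (z : ℝ) (v : V3) : ℝ × ℝ := (v.2.1 - z * v.1, v.2.2 - z ^ 2 * v.1)

/-- the line through two points of the plane, as a vector -/
def lv (a b : ℝ × ℝ) : V3 := (b.2 - a.2, a.1 - b.1, b.1 * a.2 - a.1 * b.2)

private theorem proj_fin {a b c : ℝ} (h : ¬ (a = 0 ∧ b = 0 ∧ c = 0)) :
    {z : ℝ | a + z * b + z ^ 2 * c = 0}.Finite := by
  obtain ⟨P, hP⟩ : ∃ P : Polynomial ℝ, P = Polynomial.C a + Polynomial.C b * Polynomial.X +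
      Polynomial.C c * Polynomial.X ^ 2 := ⟨_, rfl⟩
  have hP0 : P ≠ 0 := by
    intro h0
    apply h
    have h1 : P.coeff 0 = 0 := by rw [h0, Polynomial.coeff_zero]
    have h2 : P.coeff 1 = 0 := by rw [h0, Polynomial.coeff_zero]
    have h3 : P.coeff 2 = 0 := by rw [h0, Polynomial.coeff_zero]
    rw [hP] at h1 h2 h3
    simp [Polynomial.coeff_X, Polynomial.coeff_C, Polynomial.coeff_X_pow] at h1 h2 h3
    exact ⟨h1, h2, h3⟩
  refine (Polynomial.finite_setOfPred_isRoot hP0).subset ?_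
  intro z hz
  show P.eval z = 0
  have hz' : a + z * b + z ^ 2 * c = 0 := hz
  rw [hP]
  simp only [Polynomial.eval_add, Polynomial.eval_mul, Polynomial.eval_C, Polynomial.eval_X,
    Polynomial.eval_pow]
  linarith

private theorem proj_det (z : ℝ) (a b c : V3) :
    ip (lv (pr z a) (pr z b)) (lift (pr z c)) =
      -(((b - a).2.1 * (c - a).2.2 - (b - a).2.2 * (c - a).2.1) +
        z * ((b - a).2.2 * (c - a).1 - (b - a).1 * (c - a).2.2) +
        z ^ 2 * ((b - a).1 * (c - a).2.1 - (b - a).2.1 * (c - a).1)) := by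
  simp only [ip, lv, pr, lift, Prod.fst_sub, Prod.snd_sub]
  ring

theorem proj (E : Finset V3) : ∃ z : ℝ, (∀ a ∈ E, ∀ b ∈ E, pr z a = pr z b → a = b) ∧
    ∀ a ∈ E, ∀ b ∈ E, ∀ c ∈ E, ip (lv (pr z a) (pr z b)) (lift (pr z c)) = 0 → Cl a b c := by
  have h2 : ∀ a b : V3, {z : ℝ | pr z a = pr z b ∧ a ≠ b}.Finite := by
    intro a b
    by_cases hab : a = b
    · refine Set.Finite.subset Set.finite_empty ?_
      rintro z ⟨-, hz⟩
      exact (hz hab).elim
    · by_cases h1 : b.1 = a.1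
      · refine Set.Finite.subset Set.finite_empty ?_
        rintro z ⟨hz, -⟩
        have e1 : a.2.1 - z * a.1 = b.2.1 - z * b.1 := congrArg Prod.fst hz
        have e2 : a.2.2 - z ^ 2 * a.1 = b.2.2 - z ^ 2 * b.1 := congrArg Prod.snd hz
        rw [h1] at e1 e2
        exact (hab (Prod.ext h1.symm (Prod.ext (by linarith) (by linarith)))).elim
      · refine (proj_fin (a := a.2.1 - b.2.1) (b := b.1 - a.1) (c := 0) ?_).subset ?_
        · rintro ⟨-, hb, -⟩
          exact h1 (by linarith)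
        · rintro z ⟨hz, -⟩
          have e1 : a.2.1 - z * a.1 = b.2.1 - z * b.1 := congrArg Prod.fst hz
          show a.2.1 - b.2.1 + z * (b.1 - a.1) + z ^ 2 * 0 = 0
          linarith
  have h3 : ∀ a b c : V3, {z : ℝ | ip (lv (pr z a) (pr z b)) (lift (pr z c)) = 0 ∧
      ¬ Cl a b c}.Finite := by
    intro a b c
    by_cases hc : Cl a b c
    · refine Set.Finite.subset Set.finite_empty ?_
      rintro z ⟨-, hz⟩
      exact (hz hc).elim
    · refine (proj_fin (a := (b - a).2.1 * (c - a).2.2 - (b - a).2.2 * (c - a).2.1)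
        (b := (b - a).2.2 * (c - a).1 - (b - a).1 * (c - a).2.2)
        (c := (b - a).1 * (c - a).2.1 - (b - a).2.1 * (c - a).1) ?_).subset ?_
      · rintro ⟨e1, e2, e3⟩
        exact hc ⟨by linarith, by linarith, by linarith⟩
      · rintro z ⟨hz, -⟩
        rw [proj_det] at hz
        exact neg_eq_zero.1 hz
  have hf : ((⋃ a ∈ E, ⋃ b ∈ E, {z : ℝ | pr z a = pr z b ∧ a ≠ b}) ∪
      ⋃ a ∈ E, ⋃ b ∈ E, ⋃ c ∈ E, {z : ℝ | ip (lv (pr z a) (pr z b)) (lift (pr z c)) = 0 ∧
        ¬ Cl a b c}).Finite := by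
    refine Set.Finite.union ?_ ?_
    · exact Set.Finite.biUnion E.finite_toSet fun a _ =>
        Set.Finite.biUnion E.finite_toSet fun b _ => h2 a b
    · exact Set.Finite.biUnion E.finite_toSet fun a _ =>
        Set.Finite.biUnion E.finite_toSet fun b _ =>
          Set.Finite.biUnion E.finite_toSet fun c _ => h3 a b c
  obtain ⟨z, hz⟩ := hf.infinite_compl.nonempty
  refine ⟨z, fun a ha b hb hab => ?_, fun a ha b hb c hc h => ?_⟩
  · by_contra hne
    apply hz
    left
    simp only [Set.mem_iUnion]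
    exact ⟨a, ha, b, hb, hab, hne⟩
  · by_contra hne
    apply hz
    right
    simp only [Set.mem_iUnion]
    exact ⟨a, ha, b, hb, c, hc, h, hne⟩

theorem proj_cl {z : ℝ} {a b c : V3} (h : Cl a b c) :
    ip (lv (pr z a) (pr z b)) (lift (pr z c)) = 0 := by
  obtain ⟨h1, h2, h3⟩ := h
  rw [proj_det, h1, h2, h3]
  ring

/-- if two lines of the plane have parallel vectors, a point on the first is on the second -/
theorem lv_par {a b c d x : ℝ × ℝ} (hab : a ≠ b) (h : Par (lv a b) (lv c d))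
    (hx : ip (lv c d) (lift x) = 0) (hcd : c ≠ d) : ip (lv a b) (lift x) = 0 := by
  have _ := hab
  obtain ⟨h1, h2, h3⟩ := h
  have hne : (lv c d).1 ≠ 0 ∨ (lv c d).2.1 ≠ 0 := by
    by_contra hcon
    push Not at hcon
    obtain ⟨e1, e2⟩ := hcon
    simp only [lv] at e1 e2
    exact hcd (Prod.ext (by linarith) (by linarith))
  simp only [ip] at hx ⊢
  generalize lv a b = u at *
  generalize lv c d = w at *
  generalize lift x = y at *
  rcases hne with hne | hne
  · have e : w.1 * (u.1 * y.1 + u.2.1 * y.2.1 + u.2.2 * y.2.2) = 0 := by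
      linear_combination u.1 * hx - y.2.1 * h1 - y.2.2 * h2
    exact (mul_eq_zero.1 e).resolve_left hne
  · have e : w.2.1 * (u.1 * y.1 + u.2.1 * y.2.1 + u.2.2 * y.2.2) = 0 := by
      linear_combination u.2.1 * hx + y.1 * h1 - y.2.2 * h3
    exact (mul_eq_zero.1 e).resolve_left hne

theorem lv_ne {a b : ℝ × ℝ} (hab : a ≠ b) : (lv a b).1 ≠ 0 ∨ (lv a b).2.1 ≠ 0 := by
  by_contra hcon
  push Not at hcon
  obtain ⟨e1, e2⟩ := hcon
  simp only [lv] at e1 e2
  exact hab (Prod.ext (by linarith) (by linarith))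

end Pool.Agent.H39.ND
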