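import Pool.Agent.H39.ND.ST3

/-!
# Module Rich (130 lines): the lines of a finite set in space, rich lines

`lns E`: all sets `ln E a b`, `a ≠ b` in `E`.

PROOFS. `lns_two`: `a, b ∈ ln E a b` (`cl_self`, `cl_self'`). `lns_uniq`: `l = ln E a b`, `x ≠ y ∈ l`: `ln_eq`.
`lns_union`: `ln_union`. `lns_pairs`: every pair `(x, y)`, `x ≠ y` in `E` is in exactly one `l ∈ lns E`
(namely `ln E x y`, by `lns_uniq`): the sets `l.offDiag`, `l ∈ lns E` with `p l` are pairwise disjoint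
and their union is the filtered `E.offDiag` (`Finset.card_eq_sum_card_fiberwise` for the map
`(x, y) ↦ ln E x y` on `E.offDiag.filter ..`; the fibre of `l` is `l.offDiag`, `Finset.offDiag_card`,
`l.card * l.card - l.card`).
`rich`: `C₀` the constant of `st3`, `n = |E|`, `H = (lns E).filter (k ≤ |l|)`, `h = |H|`. `st3` for `E`, `Λ = H`,
`l = id` (`lns_union` for the last hypothesis): `k h ≤ ∑ |l| ≤ C₀ (n^(2/3) h^(2/3) + n + h)`.
If `k ≥ 2 C₀ + 1`... : `k h / 2 ≤ C₀ (n^(2/3) h^(2/3) + n)` when `C₀ ≤ k / 2`, hence either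
`k h ≤ 4 C₀ n` or `k h ≤ 4 C₀ n^(2/3) h^(2/3)`, so `h ≤ 64 C₀³ n² / k³`. If `k < 2 C₀`: `h ≤ n²` (the pair
(a, b) determines the line) `≤ 8 C₀³ n² / k³`. So `C = 64 C₀³ + 4 C₀ + 1` works.
-/

namespace Pool.Agent.H39.ND

open Finset
open scoped Classical

/-- the lines spanned by `E` -/
noncomputable def lns (E : Finset V3) : Finset (Finset V3) :=
  E.offDiag.image fun q => ln E q.1 q.2

private theorem rich_mem {E l : Finset V3} (hl : l ∈ lns E) :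
    ∃ a ∈ E, ∃ b ∈ E, a ≠ b ∧ ln E a b = l := by
  unfold lns at hl
  rw [mem_image] at hl
  obtain ⟨q, hq, rfl⟩ := hl
  rw [mem_offDiag] at hq
  exact ⟨q.1, hq.1, q.2, hq.2.1, hq.2.2, rfl⟩

private theorem rich_ln_mem {E : Finset V3} {a b : V3} (ha : a ∈ E) (hb : b ∈ E) (hab : a ≠ b) :
    ln E a b ∈ lns E := by
  unfold lns
  rw [mem_image]
  exact ⟨(a, b), mem_offDiag.2 ⟨ha, hb, hab⟩, rfl⟩

theorem lns_sub {E l : Finset V3} (hl : l ∈ lns E) : l ⊆ E := by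
  obtain ⟨a, _, b, _, _, rfl⟩ := rich_mem hl
  exact fun c hc => (mem_ln.1 hc).1

theorem lns_col {E l : Finset V3} (hl : l ∈ lns E) : Col l := by
  obtain ⟨a, _, b, _, hab, rfl⟩ := rich_mem hl
  exact col_ln hab

theorem lns_two {E l : Finset V3} (hl : l ∈ lns E) : 2 ≤ l.card := by
  obtain ⟨a, ha, b, hb, hab, rfl⟩ := rich_mem hl
  exact one_lt_card.2 ⟨a, mem_ln.2 ⟨ha, cl_self a b⟩, b, mem_ln.2 ⟨hb, cl_self' a b⟩, hab⟩

theorem lns_uniq {E l : Finset V3} (hl : l ∈ lns E) {x y : V3} (hx : x ∈ l) (hy : y ∈ l)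
    (hxy : x ≠ y) : l = ln E x y := by
  obtain ⟨a, _, b, _, hab, rfl⟩ := rich_mem hl
  exact ln_eq hab hxy (mem_ln.1 hx).2 (mem_ln.1 hy).2

theorem lns_union {E l l' : Finset V3} (hl : l ∈ lns E) (hl' : l' ∈ lns E) (h : l ≠ l') :
    ¬ Col (l ∪ l') := by
  obtain ⟨a, ha, b, hb, hab, rfl⟩ := rich_mem hl
  obtain ⟨c, hc, d, hd, hcd, rfl⟩ := rich_mem hl'
  exact fun hcol => h (ln_union hab hcd ha hb hc hd hcol)

/-- count of the pairs on the lines with a property -/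
theorem lns_pairs (E : Finset V3) (p : Finset V3 → Prop) :
    (E.offDiag.filter fun q => p (ln E q.1 q.2)).card =
      ∑ l ∈ (lns E).filter p, (l.card * l.card - l.card) := by
  have hmap : ∀ q ∈ (E.offDiag.filter fun q => p (ln E q.1 q.2)),
      ln E q.1 q.2 ∈ (lns E).filter p := by
    intro q hq
    rw [mem_filter, mem_offDiag] at hq
    rw [mem_filter]
    exact ⟨rich_ln_mem hq.1.1 hq.1.2.1 hq.1.2.2, hq.2⟩
  rw [card_eq_sum_card_fiberwise (f := fun q : V3 × V3 => ln E q.1 q.2) hmap]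
  refine sum_congr rfl fun l hl => ?_
  rw [← offDiag_card]
  congr 1
  rw [mem_filter] at hl
  ext q
  rw [mem_filter, mem_filter, mem_offDiag, mem_offDiag]
  constructor
  · rintro ⟨⟨⟨h1, h2, h3⟩, _⟩, h5⟩
    rw [← h5]
    exact ⟨mem_ln.2 ⟨h1, cl_self _ _⟩, mem_ln.2 ⟨h2, cl_self' _ _⟩, h3⟩
  · rintro ⟨h1, h2, h3⟩
    have e := lns_uniq hl.1 h1 h2 h3
    exact ⟨⟨⟨lns_sub hl.1 h1, lns_sub hl.1 h2, h3⟩, e ▸ hl.2⟩, e.symm⟩

/-- the numerical part of `rich` for large `k` -/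
private theorem rich_num {n h k c : ℝ} (hn : 0 ≤ n) (hh : 0 ≤ h) (hk : 2 ≤ k) (hc : 0 ≤ c)
    (hkc : 2 * c ≤ k)
    (hst : k * h ≤ c * (n ^ (2 / 3 : ℝ) * h ^ (2 / 3 : ℝ) + n + h)) :
    h ≤ (64 * c ^ 3 + 4 * c + 1) * (n ^ 2 / k ^ 3 + n / k) := by
  have hk0 : 0 < k := by linarith
  have hc3 : 0 ≤ c ^ 3 := pow_nonneg hc 3
  have t1 : 0 ≤ n ^ 2 / k ^ 3 := div_nonneg (sq_nonneg n) (pow_nonneg hk0.le 3)
  have t2 : 0 ≤ n / k := div_nonneg hn hk0.le
  -- the two cases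
  have hhalf : k * h ≤ 2 * c * (n ^ (2 / 3 : ℝ) * h ^ (2 / 3 : ℝ)) + 2 * c * n := by
    have : c * h ≤ k / 2 * h := mul_le_mul_of_nonneg_right (by linarith) hh
    nlinarith
  rcases le_total (n ^ (2 / 3 : ℝ) * h ^ (2 / 3 : ℝ)) n with hcase | hcase
  · have h1 : k * h ≤ 4 * c * n := by
      have := mul_le_mul_of_nonneg_left hcase (by linarith : 0 ≤ 2 * c)
      linarith
    have h2 : h ≤ 4 * c * (n / k) := by
      rw [← mul_div_assoc, le_div_iff₀ hk0]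
      linarith
    have h3 : 0 ≤ (64 * c ^ 3 + 4 * c + 1) * (n ^ 2 / k ^ 3) := by positivity
    have h4 : 0 ≤ (64 * c ^ 3 + 1) * (n / k) := by positivity
    nlinarith
  · have h1 : k * h ≤ 4 * c * (n ^ (2 / 3 : ℝ) * h ^ (2 / 3 : ℝ)) := by
      have := mul_le_mul_of_nonneg_left hcase (by linarith : 0 ≤ 2 * c)
      linarith
    have h2 : h ≤ 64 * c ^ 3 * (n ^ 2 / k ^ 3) := by
      rcases hh.eq_or_lt with h0 | h0
      · rw [← h0]; positivity
      · have e1 : (n ^ (2 / 3 : ℝ)) ^ 3 = n ^ 2 := by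
          rw [← Real.rpow_natCast, ← Real.rpow_mul hn]
          norm_num
        have e2 : (h ^ (2 / 3 : ℝ)) ^ 3 = h ^ 2 := by
          rw [← Real.rpow_natCast, ← Real.rpow_mul hh]
          norm_num
        have h3 : (k * h) ^ 3 ≤ (4 * c * (n ^ (2 / 3 : ℝ) * h ^ (2 / 3 : ℝ))) ^ 3 :=
          pow_le_pow_left₀ (by positivity) h1 3
        have h4 : k ^ 3 * h * h ^ 2 ≤ 64 * c ^ 3 * n ^ 2 * h ^ 2 := by
          calc k ^ 3 * h * h ^ 2 = (k * h) ^ 3 := by ring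
            _ ≤ (4 * c * (n ^ (2 / 3 : ℝ) * h ^ (2 / 3 : ℝ))) ^ 3 := h3
            _ = 64 * c ^ 3 * (n ^ (2 / 3 : ℝ)) ^ 3 * (h ^ (2 / 3 : ℝ)) ^ 3 := by ring
            _ = 64 * c ^ 3 * n ^ 2 * h ^ 2 := by rw [e1, e2]
        have h5 : k ^ 3 * h ≤ 64 * c ^ 3 * n ^ 2 :=
          le_of_mul_le_mul_right h4 (by positivity)
        rw [← mul_div_assoc, le_div_iff₀ (by positivity)]
        linarith
    have h3 : 0 ≤ (64 * c ^ 3 + 4 * c + 1) * (n / k) := by positivity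
    have h4 : 0 ≤ (4 * c + 1) * (n ^ 2 / k ^ 3) := by positivity
    nlinarith

/-- the numerical part of `rich` for small `k` -/
private theorem rich_num' {n h k c : ℝ} (hn : 0 ≤ n) (hk : 2 ≤ k) (hc : 0 ≤ c)
    (hkc : k < 2 * c) (hst : h ≤ n ^ 2) :
    h ≤ (64 * c ^ 3 + 4 * c + 1) * (n ^ 2 / k ^ 3 + n / k) := by
  have hk0 : 0 < k := by linarith
  have hc3 : 0 ≤ c ^ 3 := pow_nonneg hc 3
  have h1 : k ^ 3 ≤ (2 * c) ^ 3 := pow_le_pow_left₀ hk0.le hkc.le 3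
  have h2 : n ^ 2 ≤ 8 * c ^ 3 * (n ^ 2 / k ^ 3) := by
    rw [← mul_div_assoc, le_div_iff₀ (by positivity)]
    nlinarith [mul_le_mul_of_nonneg_left h1 (sq_nonneg n)]
  have h3 : 0 ≤ (64 * c ^ 3 + 4 * c + 1) * (n / k) := by positivity
  have h4 : 0 ≤ (56 * c ^ 3 + 4 * c + 1) * (n ^ 2 / k ^ 3) := by positivity
  nlinarith

theorem rich : ∃ C : ℝ, 1 ≤ C ∧ ∀ (E : Finset V3) (k : ℕ), 2 ≤ k →
    (((lns E).filter fun l => k ≤ l.card).card : ℝ) ≤
      C * ((E.card : ℝ) ^ 2 / (k : ℝ) ^ 3 + (E.card : ℝ) / k) := by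
  obtain ⟨c, hc, hst⟩ := st3
  refine ⟨64 * c ^ 3 + 4 * c + 1, ?_, fun E k hk => ?_⟩
  · have : 0 ≤ c ^ 3 := pow_nonneg hc 3
    linarith
  have hk2 : (2 : ℝ) ≤ (k : ℝ) := by exact_mod_cast hk
  rcases le_or_gt (2 * c) (k : ℝ) with hkc | hkc
  · refine rich_num (Nat.cast_nonneg _) (Nat.cast_nonneg _) hk2 hc hkc ?_
    have h1 := hst E (Finset V3) ((lns E).filter fun l => k ≤ l.card) (fun l => l)
      (fun l hl => lns_sub (mem_filter.1 hl).1) (fun l hl => lns_col (mem_filter.1 hl).1)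
      (fun l hl => lns_two (mem_filter.1 hl).1)
      (fun l hl l' hl' hne => lns_union (mem_filter.1 hl).1 (mem_filter.1 hl').1 hne)
    refine le_trans ?_ h1
    have h2 : k * ((lns E).filter fun l => k ≤ l.card).card ≤
        ∑ l ∈ (lns E).filter (fun l => k ≤ l.card), l.card := by
      rw [mul_comm]
      have := card_nsmul_le_sum ((lns E).filter fun l => k ≤ l.card) (fun l => l.card) k
        (fun l hl => (mem_filter.1 hl).2)
      simpa [smul_eq_mul] using this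
    exact_mod_cast h2
  · refine rich_num' (Nat.cast_nonneg _) hk2 hc hkc ?_
    have h1 : ((lns E).filter fun l => k ≤ l.card).card ≤ E.card ^ 2 := by
      refine (card_filter_le _ _).trans ?_
      unfold lns
      refine card_image_le.trans ?_
      rw [offDiag_card, sq]
      exact Nat.sub_le _ _
    exact_mod_cast h1

end Pool.Agent.H39.ND
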