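import Pool.Agent.H39.ND.Bas
import Pool.Agent.H22.PS.Lines

/-!
# Module STw (130 lines): the theorem of Szemeredi and Trotter for lines `u.1 x + u.2.1 y + u.2.2 = 0`

PROOF. For `u ∈ L` let `g u = C u.1 * X 0 + C u.2.1 * X 1 + C u.2.2 : MvPolynomial (Fin 2) ℝ`. It is
irreducible of total degree at most 1: `g u ≠ 0` has total degree exactly 1 (a coefficient of `X 0`
or `X 1` is nonzero); if `g u = a * b` then `totalDegree a + totalDegree b = 1`
(`MvPolynomial.totalDegree_mul_of_isDomain`), so one factor has total degree 0, is a constant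
(`MvPolynomial.totalDegree_eq_zero_iff_eq_C`) and nonzero, so a unit. `g u` is not a unit since a unit
is a nonzero constant (total degree 0). `Zs (g u) = {p | u.1 * p.1 + u.2.1 * p.2 + u.2.2 = 0}`
(`Zs` is defined in the files of `H22/PS`: the real zero set).
`u ↦ Zs (g u)` is injective on `L`: if `Zs (g u) = Zs (g v)` then take two different points
`z, z'` of this line (for `u.2.1 ≠ 0`: `(0, -u.2.2 / u.2.1)`, `(1, -(u.1 + u.2.2) / u.2.1)`; for `u.1 ≠ 0`:
`(-u.2.2 / u.1, 0)` and `(-(u.2.1 + u.2.2) / u.1, 1)`); both equations at both points give `Par u v`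
(for example `v.1 x + v.2.1 y + v.2.2 = 0` at the two points with `u.2.1 ≠ 0`:
`v.2.1 u.2.2 = v.2.2 u.2.1` and `v.1 u.2.1 = u.1 v.2.1`, and the third equation follows after
multiplication by `u.2.1 ≠ 0`). So `u = v` by the hypothesis on `L`. Apply `H22.PS.lines` to `P` and
`Ls = L.image (fun u => Zs (g u))` (with the same cardinality as `L`) and exchange the order of
summation (`Finset.sum_card_bipartiteAbove_eq_sum_card_bipartiteBelow`).
-/

namespace Pool.Agent.H39.ND

open Finset
open scoped Classical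

open MvPolynomial in
/-- the linear polynomial of the line `u` -/
private noncomputable def stw_g (u : V3) : MvPolynomial (Fin 2) ℝ :=
  C u.1 * X 0 + C u.2.1 * X 1 + C u.2.2

private theorem stw_eval (u : V3) (x y : ℝ) :
    MvPolynomial.eval ![x, y] (stw_g u) = u.1 * x + u.2.1 * y + u.2.2 := by
  simp [stw_g]

private theorem stw_mem (u : V3) (p : ℝ × ℝ) : p ∈ H22.PS.Zs (stw_g u) ↔ ip u (lift p) = 0 := by
  unfold H22.PS.Zs ip lift
  rw [Set.mem_ofPred_eq, stw_eval, mul_one]

private theorem stw_deg (u : V3) : (stw_g u).totalDegree ≤ 1 := by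
  unfold stw_g
  have h0 : ∀ (a : ℝ) (i : Fin 2),
      (MvPolynomial.C a * MvPolynomial.X i : MvPolynomial (Fin 2) ℝ).totalDegree ≤ 1 := by
    intro a i
    refine (MvPolynomial.totalDegree_mul _ _).trans ?_
    rw [MvPolynomial.totalDegree_C, MvPolynomial.totalDegree_X]
  refine (MvPolynomial.totalDegree_add _ _).trans (max_le ?_ ?_)
  · exact (MvPolynomial.totalDegree_add _ _).trans (max_le (h0 _ _) (h0 _ _))
  · rw [MvPolynomial.totalDegree_C]
    exact Nat.zero_le 1

private theorem stw_deg_ne {u : V3} (hu : u.1 ≠ 0 ∨ u.2.1 ≠ 0) : (stw_g u).totalDegree ≠ 0 := by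
  intro h
  rw [MvPolynomial.totalDegree_eq_zero_iff_eq_C] at h
  have h0 := stw_eval u 0 0
  have h1 := stw_eval u 1 0
  have h2 := stw_eval u 0 1
  rw [h, MvPolynomial.eval_C] at h0 h1 h2
  rcases hu with hu | hu
  · apply hu
    linarith
  · apply hu
    linarith

private theorem stw_irr {u : V3} (hu : u.1 ≠ 0 ∨ u.2.1 ≠ 0) : Irreducible (stw_g u) := by
  have hd1 : (stw_g u).totalDegree = 1 := by
    have h1 := stw_deg u
    have h2 := stw_deg_ne hu
    omega
  have hne : stw_g u ≠ 0 := by
    intro h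
    rw [h, MvPolynomial.totalDegree_zero] at hd1
    exact absurd hd1 (by norm_num)
  have hunit : ∀ a : MvPolynomial (Fin 2) ℝ, a ≠ 0 → a.totalDegree = 0 → IsUnit a := by
    intro a ha h
    rw [MvPolynomial.totalDegree_eq_zero_iff_eq_C] at h
    rw [h]
    refine (IsUnit.mk0 (MvPolynomial.coeff 0 a) ?_).map MvPolynomial.C
    intro h0
    apply ha
    rw [h, h0, map_zero]
  constructor
  · intro h
    obtain ⟨b, hb⟩ := h.exists_right_inv
    have hb0 : b ≠ 0 := by
      intro h0
      rw [h0, mul_zero] at hb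
      exact zero_ne_one hb
    have h1 := MvPolynomial.totalDegree_mul_of_isDomain hne hb0
    rw [hb, MvPolynomial.totalDegree_one, hd1] at h1
    omega
  · intro a b hab
    have ha : a ≠ 0 := by
      intro h0
      rw [h0, zero_mul] at hab
      exact hne hab
    have hb : b ≠ 0 := by
      intro h0
      rw [h0, mul_zero] at hab
      exact hne hab
    have h1 := MvPolynomial.totalDegree_mul_of_isDomain ha hb
    rw [← hab, hd1] at h1
    rcases Nat.eq_zero_or_pos a.totalDegree with h2 | h2
    · exact Or.inl (hunit a ha h2)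
    · exact Or.inr (hunit b hb (by omega))

private theorem stw_par {u v : V3} (hu : u.1 ≠ 0 ∨ u.2.1 ≠ 0)
    (h : H22.PS.Zs (stw_g u) = H22.PS.Zs (stw_g v)) : Par u v := by
  obtain ⟨a, b, c⟩ := u
  obtain ⟨a', b', c'⟩ := v
  have key : ∀ x y : ℝ, a * x + b * y + c = 0 → a' * x + b' * y + c' = 0 := by
    intro x y hxy
    have h1 : ((x, y) : ℝ × ℝ) ∈ H22.PS.Zs (stw_g (a, b, c)) := by
      rw [stw_mem]
      unfold ip lift
      simp only
      linarith
    rw [h, stw_mem] at h1
    unfold ip lift at h1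
    simp only at h1
    linarith
  unfold Par
  simp only
  by_cases hb : b = 0
  · have ha : a ≠ 0 := by
      rcases hu with h1 | h1
      · exact h1
      · exact absurd hb h1
    have h1 := key (-c / a) 0 (by field_simp; ring)
    have h2 := key (-(b + c) / a) 1 (by field_simp; ring)
    have e1 : a' * c = c' * a := by
      field_simp at h1
      linarith
    have e2 : b' * a = a' * b := by
      field_simp at h2
      linarith
    refine ⟨by linarith, by linarith, ?_⟩
    have h3 : a * (b * c' - c * b') = 0 := by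
      linear_combination (-b) * e1 - c * e2
    rcases mul_eq_zero.1 h3 with h4 | h4
    · exact absurd h4 ha
    · linarith
  · have h1 := key 0 (-c / b) (by field_simp; ring)
    have h2 := key 1 (-(a + c) / b) (by field_simp; ring)
    have e1 : b' * c = c' * b := by
      field_simp at h1
      linarith
    have e2 : a' * b = b' * a := by
      field_simp at h2
      linarith
    refine ⟨by linarith, ?_, by linarith⟩
    have h3 : b * (a * c' - c * a') = 0 := by
      linear_combination (-a) * e1 - c * e2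
    rcases mul_eq_zero.1 h3 with h4 | h4
    · exact absurd h4 hb
    · linarith

theorem st : ∃ C : ℝ, 0 ≤ C ∧ ∀ (P : Finset (ℝ × ℝ)) (L : Finset V3),
    (∀ u ∈ L, u.1 ≠ 0 ∨ u.2.1 ≠ 0) → (∀ u ∈ L, ∀ v ∈ L, u ≠ v → ¬ Par u v) →
    ((∑ p ∈ P, (L.filter fun u => ip u (lift p) = 0).card : ℕ) : ℝ) ≤
      C * ((P.card : ℝ) ^ (2 / 3 : ℝ) * (L.card : ℝ) ^ (2 / 3 : ℝ) + P.card + L.card) := by
  obtain ⟨C, hC, h⟩ := H22.PS.lines
  refine ⟨C, hC, fun P L hL hP => ?_⟩
  have hinj : Set.InjOn (fun u => H22.PS.Zs (stw_g u)) (L : Set V3) := by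
    intro u hu v hv huv
    by_contra hne
    exact hP u hu v hv hne (stw_par (hL u hu) huv)
  have h1 := h P (L.image fun u => H22.PS.Zs (stw_g u)) (by
    intro c hc
    obtain ⟨u, hu, rfl⟩ := Finset.mem_image.1 hc
    exact ⟨stw_g u, stw_irr (hL u hu), stw_deg u, rfl⟩)
  rw [Finset.card_image_of_injOn hinj, Finset.sum_image hinj] at h1
  have h2 : ∑ p ∈ P, (L.filter fun u => ip u (lift p) = 0).card =
      ∑ u ∈ L, (P.filter fun p => p ∈ H22.PS.Zs (stw_g u)).card := by
    have h3 := Finset.sum_card_bipartiteAbove_eq_sum_card_bipartiteBelow (s := P) (t := L)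
      (fun (p : ℝ × ℝ) (u : V3) => ip u (lift p) = 0)
    unfold Finset.bipartiteAbove Finset.bipartiteBelow at h3
    rw [h3]
    refine Finset.sum_congr rfl fun u _ => ?_
    congr 1
    refine Finset.filter_congr fun p _ => ?_
    exact (stw_mem u p).symm
  rw [h2]
  exact h1

end Pool.Agent.H39.ND
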