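import Pool.Agent.H39.ND.Proj
import Pool.Agent.H39.ND.STw

/-!
# Module ST3 (130 lines): Szemeredi and Trotter for collinear subsets of a finite set in space

PROOF. `C` the constant of `st`. Let `z` be from `proj` for `E = A`. Every `i ∈ Λ` has
`a_i ≠ b_i ∈ l i` (`Finset.one_lt_card`); `u i = lv (pr z a_i) (pr z b_i)`, `pr z a_i ≠ pr z b_i`.
(1) For `c ∈ l i`: `Cl a_i b_i c` (`Col`), so `ip (u i) (lift (pr z c)) = 0` (`proj_cl`).
(2) For `i ≠ j` in `Λ` not `Par (u i) (u j)`: otherwise every `c ∈ l i ∪ l j ⊆ A` satisfies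
`ip (u i) (lift (pr z c)) = 0` ((1) and `lv_par`), so `Cl a_i b_i c` by `proj`, so `l i ∪ l j` is `Col` by
`cl_line`, contradiction. In particular `u` is injective on `Λ` (`Par u u`).
Let `L = Λ.image u`, `|L| = |Λ|`, `P = A.image (pr z)`, `|P| = |A|`. `lv_ne` gives the hypothesis of `st`.
`∑ i ∈ Λ, |l i| ≤ ∑ i ∈ Λ, |A.filter (fun c => ip (u i) (lift (pr z c)) = 0)| =
∑ c ∈ A, |Λ.filter (fun i => ip (u i) (lift (pr z c)) = 0)| = ∑ x ∈ P, |L.filter (fun u => ip u (lift x) = 0)|`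
and `st` finishes.
-/

namespace Pool.Agent.H39.ND

open Finset
open scoped Classical

theorem st3 : ∃ C : ℝ, 0 ≤ C ∧ ∀ (A : Finset V3) (ι : Type) (Λ : Finset ι) (l : ι → Finset V3),
    (∀ i ∈ Λ, l i ⊆ A) → (∀ i ∈ Λ, Col (l i)) → (∀ i ∈ Λ, 2 ≤ (l i).card) →
    (∀ i ∈ Λ, ∀ j ∈ Λ, i ≠ j → ¬ Col (l i ∪ l j)) →
    ((∑ i ∈ Λ, (l i).card : ℕ) : ℝ) ≤
      C * ((A.card : ℝ) ^ (2 / 3 : ℝ) * (Λ.card : ℝ) ^ (2 / 3 : ℝ) + A.card + Λ.card) := by
  obtain ⟨C, hC, hst⟩ := st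
  refine ⟨C, hC, fun A ι Λ l hlA hcol h2 hne => ?_⟩
  obtain ⟨z, hinj, hproj⟩ := proj A
  have hab : ∀ i : ι, ∃ p : V3 × V3, i ∈ Λ → p.1 ∈ l i ∧ p.2 ∈ l i ∧ p.1 ≠ p.2 := by
    intro i
    by_cases hi : i ∈ Λ
    · obtain ⟨a, ha, b, hb, hab⟩ := Finset.one_lt_card.1 (h2 i hi)
      exact ⟨(a, b), fun _ => ⟨ha, hb, hab⟩⟩
    · exact ⟨(0, 0), fun h => absurd h hi⟩
  choose p hp using hab
  set u : ι → V3 := fun i => lv (pr z (p i).1) (pr z (p i).2) with hu
  have hprne : ∀ i ∈ Λ, pr z (p i).1 ≠ pr z (p i).2 := fun i hi e =>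
    (hp i hi).2.2 (hinj _ (hlA i hi (hp i hi).1) _ (hlA i hi (hp i hi).2.1) e)
  have h1 : ∀ i ∈ Λ, ∀ c ∈ l i, ip (u i) (lift (pr z c)) = 0 := fun i hi c hc =>
    proj_cl (hcol i hi _ (hp i hi).1 _ (hp i hi).2.1 _ hc)
  have hnp : ∀ i ∈ Λ, ∀ j ∈ Λ, i ≠ j → ¬ Par (u i) (u j) := by
    intro i hi j hj hij hpar
    apply hne i hi j hj hij
    have key : ∀ c ∈ l i ∪ l j, Cl (p i).1 (p i).2 c := by
      intro c hc
      have hcA : c ∈ A := by
        rcases mem_union.1 hc with h | h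
        · exact hlA i hi h
        · exact hlA j hj h
      apply hproj _ (hlA i hi (hp i hi).1) _ (hlA i hi (hp i hi).2.1) _ hcA
      rcases mem_union.1 hc with h | h
      · exact h1 i hi c h
      · exact lv_par (hprne i hi) hpar (h1 j hj c h) (hprne j hj)
    intro a ha b hb c hc
    exact cl_line (hp i hi).2.2 (key a ha) (key b hb) (key c hc)
  have huinj : ∀ i ∈ Λ, ∀ j ∈ Λ, u i = u j → i = j := by
    intro i hi j hj e
    by_contra hij
    refine hnp i hi j hj hij ?_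
    rw [e]
    exact ⟨mul_comm _ _, mul_comm _ _, mul_comm _ _⟩
  have hinjL : Set.InjOn u (Λ : Set ι) := fun i hi j hj e => huinj i hi j hj e
  have hinjA : Set.InjOn (pr z) (A : Set V3) := fun a ha b hb e => hinj a ha b hb e
  have hL : (Λ.image u).card = Λ.card := card_image_of_injOn hinjL
  have hP : (A.image (pr z)).card = A.card := card_image_of_injOn hinjA
  have h3 := hst (A.image (pr z)) (Λ.image u) (by
    intro v hv
    obtain ⟨i, hi, rfl⟩ := mem_image.1 hv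
    exact lv_ne (hprne i hi)) (by
    intro v hv w hw hvw
    obtain ⟨i, hi, rfl⟩ := mem_image.1 hv
    obtain ⟨j, hj, rfl⟩ := mem_image.1 hw
    exact hnp i hi j hj fun e => hvw (by rw [e]))
  rw [hL, hP] at h3
  refine le_trans (Nat.cast_le.2 ?_) h3
  rw [sum_image hinjA]
  have h4 : ∀ c ∈ A, ((Λ.image u).filter fun v => ip v (lift (pr z c)) = 0).card =
      (Λ.filter fun i => ip (u i) (lift (pr z c)) = 0).card := by
    intro c _
    rw [filter_image]
    exact card_image_of_injOn (hinjL.mono (by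
      intro i hi
      exact (mem_filter.1 (mem_coe.1 hi)).1))
  rw [sum_congr rfl h4]
  have h5 := Finset.sum_card_bipartiteAbove_eq_sum_card_bipartiteBelow (s := A) (t := Λ)
    (fun c i => ip (u i) (lift (pr z c)) = 0)
  have h6 : ∑ c ∈ A, (Λ.filter fun i => ip (u i) (lift (pr z c)) = 0).card =
      ∑ i ∈ Λ, (A.filter fun c => ip (u i) (lift (pr z c)) = 0).card := by
    simpa only [bipartiteAbove, bipartiteBelow] using h5
  rw [h6]
  refine sum_le_sum fun i hi => card_le_card fun c hc => mem_filter.2 ⟨hlA i hi hc, h1 i hi c hc⟩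

end Pool.Agent.H39.ND
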